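import Pool.Agent.Lib.MP_434b1a_gt.Defs

/-!
`cov(𝓑)` computed in `ℝ^n`, and the lower bound of the open Hausdorff number of an everywhere
non-Hausdorff manifold.
-/

namespace Pool.Agent.Lib.MP_434b1a_gt.Baire

open Cardinal Topology Set

lemma covB_le_of_cover {ι : Type} (A : ι → Set ℝ) (hA : ∀ i, IsNowhereDense (A i))
    (h : ∀ x, ∃ i, x ∈ A i) : covB ≤ #ι := by
  refine (csInf_le' ?_).trans (mk_range_le (f := A))
  refine ⟨Set.range A, rfl, ?_, ?_⟩
  · rintro _ ⟨i, rfl⟩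
    exact hA i
  · ext x
    simp only [mem_univ, iff_true]
    obtain ⟨i, hi⟩ := h x
    exact ⟨_, ⟨i, rfl⟩, hi⟩

lemma covB_le_continuum : covB ≤ 𝔠 := by
  rw [← mk_real]
  refine covB_le_of_cover (fun x : ℝ => ({x} : Set ℝ)) (fun x => ?_) (fun x => ⟨x, rfl⟩)
  rw [IsNowhereDense, closure_singleton, interior_singleton]

/-- Kuratowski-Ulam type alternative. -/
lemma kuratowski_ulam {X Y ι : Type} [TopologicalSpace X] [TopologicalSpace Y]
    [SecondCountableTopology Y] (A : ι → Set (X × Y)) (hc : ∀ i, IsClosed (A i))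
    (hi : ∀ i, interior (A i) = ∅) (h : ∀ p, ∃ i, p ∈ A i) :
    (∃ B : ι × TopologicalSpace.countableBasis Y → Set X, (∀ k, IsClosed (B k)) ∧
      (∀ k, interior (B k) = ∅) ∧ ∀ x, ∃ k, x ∈ B k) ∨
    (∃ B : ι → Set Y, (∀ k, IsClosed (B k)) ∧ (∀ k, interior (B k) = ∅) ∧
      ∀ y, ∃ k, y ∈ B k) := by
  set B : ι × TopologicalSpace.countableBasis Y → Set X :=
    fun k => {x | ∀ y ∈ (k.2 : Set Y), (x, y) ∈ A k.1} with hB
  have hBc : ∀ k, IsClosed (B k) := by
    intro k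
    have : B k = ⋂ y ∈ (k.2 : Set Y), (fun x => (x, y)) ⁻¹' A k.1 := by
      ext x; simp [hB]
    rw [this]
    exact isClosed_biInter fun y _ => (hc k.1).preimage (by fun_prop)
  have hBi : ∀ k, interior (B k) = ∅ := by
    rintro ⟨i, b⟩
    by_contra hne
    obtain ⟨x, hx⟩ := Set.nonempty_iff_ne_empty.mpr hne
    obtain ⟨y, hy⟩ := TopologicalSpace.nonempty_of_mem_countableBasis b.2
    have h1 : interior (B (i, b)) ×ˢ (b : Set Y) ⊆ A i := by
      rintro ⟨u, v⟩ ⟨hu, hv⟩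
      exact interior_subset hu v hv
    have h2 : IsOpen (interior (B (i, b)) ×ˢ (b : Set Y)) :=
      isOpen_interior.prod (TopologicalSpace.isOpen_of_mem_countableBasis b.2)
    have h3 : (x, y) ∈ interior (A i) := interior_maximal h1 h2 ⟨hx, hy⟩
    rw [hi i] at h3
    exact h3
  by_cases hcov : ∀ x, ∃ k, x ∈ B k
  · exact Or.inl ⟨B, hBc, hBi, hcov⟩
  · right
    push Not at hcov
    obtain ⟨x, hx⟩ := hcov
    refine ⟨fun i => (fun y => (x, y)) ⁻¹' A i, fun i => (hc i).preimage (by fun_prop), ?_,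
      fun y => h (x, y)⟩
    intro i
    by_contra hne
    obtain ⟨y, hy⟩ := Set.nonempty_iff_ne_empty.mpr hne
    obtain ⟨b, hb, hyb, hbs⟩ := (TopologicalSpace.isBasis_countableBasis Y).exists_subset_of_mem_open
      hy isOpen_interior
    refine hx (i, ⟨b, hb⟩) fun z hz => ?_
    have h1 := interior_subset (hbs hz)
    exact h1

lemma covB_le_pi (n : ℕ) {ι : Type} (A : ι → Set (Fin n → ℝ)) (hc : ∀ i, IsClosed (A i))
    (hi : ∀ i, interior (A i) = ∅) (h : ∀ p, ∃ i, p ∈ A i) : covB ≤ #ι * ℵ₀ := by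
  induction n with
  | zero =>
    exfalso
    obtain ⟨i, hp⟩ := h 0
    have h1 : A i = Set.univ := by
      ext q
      simp only [mem_univ, iff_true]
      rwa [Subsingleton.elim q 0]
    have h2 := hi i
    rw [h1, interior_univ] at h2
    exact (Set.univ_nonempty (α := Fin 0 → ℝ)).ne_empty h2
  | succ n ih =>
    let e : ℝ × (Fin n → ℝ) ≃ₜ (Fin (n + 1) → ℝ) :=
      (Fin.consEquivL ℝ (fun _ : Fin (n + 1) => ℝ)).toHomeomorph
    rcases kuratowski_ulam (fun i => e ⁻¹' A i) (fun i => (hc i).preimage e.continuous)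
      (fun i => by rw [← e.preimage_interior, hi i, Set.preimage_empty])
      (fun p => h (e p)) with ⟨B, hBc, hBi, hB⟩ | ⟨B, hBc, hBi, hB⟩
    · refine (covB_le_of_cover B (fun k => ?_) hB).trans ?_
      · rw [IsNowhereDense, (hBc k).closure_eq, hBi k]
      · rw [mk_prod, lift_id, lift_id]
        exact mul_le_mul_right ((TopologicalSpace.countable_countableBasis _).le_aleph0) _
    · exact ih B hBc hBi hB

/-- In an everywhere non-Hausdorff manifold every point is in the frontier of some member of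
any cover by open Hausdorff sets. -/
lemma mem_frontier {M : Type} [TopologicalSpace M] (hM : EverywhereNonHausdorff M)
    (𝒰 : Set (Set M)) (h𝒰 : ∀ U ∈ 𝒰, IsOpen U ∧ T2Space U) (hcov : ⋃₀ 𝒰 = Set.univ) (x : M) :
    ∃ U ∈ 𝒰, x ∈ frontier U := by
  obtain ⟨y, hyx, hns⟩ := hM x
  have hy : y ∈ ⋃₀ 𝒰 := by rw [hcov]; trivial
  obtain ⟨U, hU, hyU⟩ := hy
  obtain ⟨hUo, hUt⟩ := h𝒰 U hU
  refine ⟨U, hU, ?_, ?_⟩
  · rw [mem_closure_iff]
    intro V hV hxV
    exact hns V U hV hUo hxV hyU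
  · rw [hUo.interior_eq]
    intro hxU
    obtain ⟨V, W, hV, hW, hxV, hyW, hd⟩ :=
      t2_separation (x := (⟨x, hxU⟩ : U)) (y := ⟨y, hyU⟩) (fun h => hyx (congrArg Subtype.val h).symm)
    have hV' := hUo.isOpenMap_subtype_val _ hV
    have hW' := hUo.isOpenMap_subtype_val _ hW
    obtain ⟨z, ⟨v, hv, hvz⟩, ⟨w, hw, hwz⟩⟩ := hns _ _ hV' hW' ⟨_, hxV, rfl⟩ ⟨_, hyW, rfl⟩
    have : v = w := Subtype.ext (hvz.trans hwz.symm)
    subst this
    exact Set.disjoint_left.mp hd hv hw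

lemma covB_le {M : Type} [TopologicalSpace M] {n : ℕ} (hm : TopManifold n M)
    (hM : EverywhereNonHausdorff M) (𝒰 : Set (Set M)) (h𝒰 : ∀ U ∈ 𝒰, IsOpen U ∧ T2Space U)
    (hcov : ⋃₀ 𝒰 = Set.univ) : covB ≤ #𝒰 * ℵ₀ := by
  have := hm.connected
  obtain ⟨x⟩ : Nonempty M := inferInstance
  obtain ⟨W, hW, hxW, ⟨e⟩⟩ := hm.chart x
  let f : (Fin n → ℝ) ≃ₜ W := ((EuclideanSpace.equiv (Fin n) ℝ).toHomeomorph.symm).trans e.symm
  have hfo : IsOpenMap (fun v => (f v : M)) :=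
    hW.isOpenMap_subtype_val.comp f.isOpenMap
  have hfc : Continuous (fun v => (f v : M)) := continuous_subtype_val.comp f.continuous
  refine covB_le_pi n (fun U : 𝒰 => (fun v => (f v : M)) ⁻¹' frontier (U : Set M))
    (fun U => isClosed_frontier.preimage hfc) (fun U => ?_) (fun v => ?_)
  · by_contra hne
    obtain ⟨v, hv⟩ := Set.nonempty_iff_ne_empty.mpr hne
    have h1 : (fun v => (f v : M)) '' interior ((fun v => (f v : M)) ⁻¹' frontier (U : Set M))
        ⊆ interior (frontier (U : Set M)) := by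
      apply interior_maximal _ (hfo _ isOpen_interior)
      rintro _ ⟨w, hw, rfl⟩
      have h2 := interior_subset hw
      exact h2
    have h2 : interior (frontier (U : Set M)) = ∅ := by
      rw [← frontier_compl]
      exact interior_frontier (h𝒰 U U.2).1.isClosed_compl
    have h3 := h1 ⟨v, hv, rfl⟩
    rw [h2] at h3
    exact h3
  · obtain ⟨U, hU, h⟩ := mem_frontier hM 𝒰 h𝒰 hcov (f v)
    exact ⟨⟨U, hU⟩, h⟩

end Pool.Agent.Lib.MP_434b1a_gt.Baire
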