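import Pool.Agent.Lib.MP_434b1a_gt.Defs

/-!
The construction: if `ℝ` is covered by the nowhere dense sets `N i`, glue copies of a
Pruefer type surface along the complements of the preimages of the `N i`.
-/

namespace Pool.Agent.Lib.MP_434b1a_gt.Construct

open Cardinal Topology Set

variable {I : Type} (N : I → Set ℝ)

/-- closures, with `none` giving the empty set -/
def cN : Option I → Set ℝ
  | none => ∅
  | some i => closure (N i)

lemma isClosed_cN (i : Option I) : IsClosed (cN N i) := by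
  cases i with
  | none => exact isClosed_empty
  | some i => exact isClosed_closure

/-- The gluing relation on charts indexed by `Option I × ℝ`, each chart being `ℝ × ℝ`. -/
def Rel (s t : (Option I × ℝ) × (ℝ × ℝ)) : Prop :=
  s.2.2 = t.2.2 ∧ (s.1.1 = t.1.1 ∨ (s.2.2 ∉ cN N s.1.1 ∧ s.2.2 ∉ cN N t.1.1)) ∧
    ((s.1.2 = t.1.2 ∧ s.2.1 = t.2.1) ∨
      (0 < s.2.2 ∧ s.1.2 + s.2.1 * s.2.2 = t.1.2 + t.2.1 * s.2.2))

lemma rel_refl (s : (Option I × ℝ) × (ℝ × ℝ)) : Rel N s s :=
  ⟨rfl, Or.inl rfl, Or.inl ⟨rfl, rfl⟩⟩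

lemma rel_symm {s t : (Option I × ℝ) × (ℝ × ℝ)} (h : Rel N s t) : Rel N t s := by
  obtain ⟨h1, h2, h3⟩ := h
  refine ⟨h1.symm, ?_, ?_⟩
  · rcases h2 with h2 | h2
    · exact Or.inl h2.symm
    · rw [← h1]
      exact Or.inr ⟨h2.2, h2.1⟩
  · rcases h3 with h3 | h3
    · exact Or.inl ⟨h3.1.symm, h3.2.symm⟩
    · rw [← h1]
      exact Or.inr ⟨h3.1, h3.2.symm⟩

lemma rel_trans {s t u : (Option I × ℝ) × (ℝ × ℝ)} (h : Rel N s t) (h' : Rel N t u) :
    Rel N s u := by
  obtain ⟨⟨i, a⟩, ⟨x, y⟩⟩ := s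
  obtain ⟨⟨j, b⟩, ⟨x', y'⟩⟩ := t
  obtain ⟨⟨k, c⟩, ⟨x'', y''⟩⟩ := u
  obtain ⟨h1, h2, h3⟩ := h
  obtain ⟨h1', h2', h3'⟩ := h'
  simp only at h1 h2 h3 h1' h2' h3'
  subst h1
  subst h1'
  refine ⟨rfl, ?_, ?_⟩
  · simp only
    rcases h2 with h2 | h2
    · subst h2
      exact h2'
    · rcases h2' with h2' | h2'
      · subst h2'
        exact Or.inr h2
      · exact Or.inr ⟨h2.1, h2'.2⟩
  · simp only
    rcases h3 with ⟨h3, h3a⟩ | h3
    · subst h3
      subst h3a
      exact h3'
    · rcases h3' with ⟨h3', h3a'⟩ | h3'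
      · subst h3'
        subst h3a'
        exact Or.inr h3
      · exact Or.inr ⟨h3.1, h3.2.trans h3'.2⟩

/-- The setoid. -/
def S : Setoid ((Option I × ℝ) × (ℝ × ℝ)) where
  r := Rel N
  iseqv := ⟨rel_refl N, rel_symm N, rel_trans N⟩

/-- The manifold. -/
def M : Type := Quotient (S N)

/-- The charts. -/
def chart (j : Option I × ℝ) (p : ℝ × ℝ) : M N := Quotient.mk (S N) (j, p)

lemma chart_eq_iff (j k : Option I × ℝ) (p q : ℝ × ℝ) :
    chart N j p = chart N k q ↔ Rel N (j, p) (k, q) := by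
  constructor
  · intro h
    exact Quotient.exact (s := S N) h
  · intro h
    exact Quotient.sound (s := S N) h

/-- A set is open iff all its traces on the charts are open. -/
instance : TopologicalSpace (M N) where
  IsOpen U := ∀ j, IsOpen (chart N j ⁻¹' U)
  isOpen_univ := fun j => by simp
  isOpen_inter := fun U V hU hV j => by
    rw [preimage_inter]
    exact (hU j).inter (hV j)
  isOpen_sUnion := fun 𝒰 h j => by
    rw [preimage_sUnion]
    exact isOpen_biUnion fun U hU => h U hU j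

lemma isOpen_iff (U : Set (M N)) : IsOpen U ↔ ∀ j, IsOpen (chart N j ⁻¹' U) := Iff.rfl

lemma continuous_chart (j : Option I × ℝ) : Continuous (chart N j) :=
  ⟨fun U hU => (isOpen_iff N U).mp hU j⟩

lemma chart_injective (j : Option I × ℝ) : Function.Injective (chart N j) := by
  intro p q h
  rw [chart_eq_iff] at h
  obtain ⟨h1, -, h3⟩ := h
  obtain ⟨x, y⟩ := p
  obtain ⟨x', y'⟩ := q
  simp only at h1 h3
  subst h1
  rcases h3 with h3 | h3
  · rw [h3.2]
  · have : x = x' := by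
      have h4 := h3.2
      have h5 : x * y = x' * y := by linarith
      exact mul_right_cancel₀ h3.1.ne' h5
    rw [this]

lemma isOpenMap_chart (j : Option I × ℝ) : IsOpenMap (chart N j) := by
  intro W hW
  rw [isOpen_iff]
  rintro ⟨k, b⟩
  obtain ⟨i, a⟩ := j
  have key : chart N (k, b) ⁻¹' (chart N (i, a) '' W) =
      {q : ℝ × ℝ | i = k ∨ (q.2 ∉ cN N i ∧ q.2 ∉ cN N k)} ∩
        ({q | a = b ∧ q ∈ W} ∪ {q | 0 < q.2 ∧ ((b + q.1 * q.2 - a) / q.2, q.2) ∈ W}) := by
    ext ⟨x', y'⟩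
    simp only [mem_preimage, mem_image, mem_inter_iff, mem_ofPred_eq, mem_union]
    constructor
    · rintro ⟨⟨x, y⟩, hp, h⟩
      rw [chart_eq_iff] at h
      obtain ⟨h1, h2, h3⟩ := h
      simp only at h1 h2 h3
      subst h1
      refine ⟨h2, ?_⟩
      rcases h3 with ⟨h3, h3a⟩ | h3
      · subst h3a
        exact Or.inl ⟨h3, hp⟩
      · right
        refine ⟨h3.1, ?_⟩
        have : (b + x' * y - a) / y = x := by
          rw [div_eq_iff h3.1.ne', ← h3.2]
          ring
        rw [this]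
        exact hp
    · rintro ⟨h2, h3⟩
      rcases h3 with ⟨h3, hp⟩ | ⟨hy, hp⟩
      · refine ⟨(x', y'), hp, ?_⟩
        rw [chart_eq_iff]
        exact ⟨rfl, h2, Or.inl ⟨h3, rfl⟩⟩
      · refine ⟨_, hp, ?_⟩
        rw [chart_eq_iff]
        refine ⟨rfl, h2, Or.inr ⟨hy, ?_⟩⟩
        simp only
        field_simp
        ring
  rw [key]
  apply IsOpen.inter
  · by_cases h : i = k
    · have : {q : ℝ × ℝ | i = k ∨ (q.2 ∉ cN N i ∧ q.2 ∉ cN N k)} = Set.univ := by
        ext q; simp [h]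
      rw [this]
      exact isOpen_univ
    · have : {q : ℝ × ℝ | i = k ∨ (q.2 ∉ cN N i ∧ q.2 ∉ cN N k)} =
          Prod.snd ⁻¹' ((cN N i)ᶜ ∩ (cN N k)ᶜ) := by
        ext q; simp [h]
      rw [this]
      exact ((isClosed_cN N i).isOpen_compl.inter (isClosed_cN N k).isOpen_compl).preimage
        continuous_snd
  · apply IsOpen.union
    · by_cases h : a = b
      · simpa [h] using hW
      · simp [h]
    · have : {q : ℝ × ℝ | 0 < q.2 ∧ ((b + q.1 * q.2 - a) / q.2, q.2) ∈ W} =
          {q : ℝ × ℝ | 0 < q.2} ∩ (fun q : ℝ × ℝ => ((b + q.1 * q.2 - a) / q.2, q.2)) ⁻¹' W := rfl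
      rw [this]
      apply ContinuousOn.isOpen_inter_preimage _ _ hW
      · apply ContinuousOn.prodMk
        · apply ContinuousOn.div
          · fun_prop
          · fun_prop
          · intro q hq
            exact (ne_of_gt hq)
        · fun_prop
      · exact isOpen_lt continuous_const continuous_snd

lemma isOpenEmbedding_chart (j : Option I × ℝ) : IsOpenEmbedding (chart N j) :=
  .of_continuous_injective_isOpenMap (continuous_chart N j) (chart_injective N j)
    (isOpenMap_chart N j)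

lemma exists_chart (m : M N) : ∃ i a x y, m = chart N (i, a) (x, y) := by
  induction m using Quotient.inductionOn with
  | h s => exact ⟨s.1.1, s.1.2, s.2.1, s.2.2, rfl⟩

/-! ### The coordinate `y` and the coordinate `a + x y` -/

/-- the second coordinate -/
def Y : M N → ℝ := Quotient.lift (fun s : (Option I × ℝ) × (ℝ × ℝ) => s.2.2) fun _ _ h => h.1

@[simp] lemma Y_chart (j : Option I × ℝ) (p : ℝ × ℝ) : Y N (chart N j p) = p.2 := rfl

lemma continuous_Y : Continuous (Y N) := by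
  constructor
  intro U hU
  rw [isOpen_iff]
  intro j
  exact hU.preimage continuous_snd

/-- the first half plane coordinate, only meaningful for `y > 0` -/
noncomputable def F : M N → ℝ :=
  Quotient.lift (fun s : (Option I × ℝ) × (ℝ × ℝ) =>
    if 0 < s.2.2 then s.1.2 + s.2.1 * s.2.2 else 0) fun s t h => by
      obtain ⟨h1, -, h3⟩ := h
      rw [← h1]
      split_ifs with h0
      · rcases h3 with h3 | h3
        · rw [h3.1, h3.2]
        · exact h3.2
      · rfl

lemma F_chart (i : Option I) (a x y : ℝ) (hy : 0 < y) :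
    F N (chart N (i, a) (x, y)) = a + x * y := if_pos hy

lemma isOpen_F (V : Set ℝ) (hV : IsOpen V) : IsOpen {m : M N | 0 < Y N m ∧ F N m ∈ V} := by
  rw [isOpen_iff]
  rintro ⟨i, a⟩
  have : chart N (i, a) ⁻¹' {m : M N | 0 < Y N m ∧ F N m ∈ V} =
      {q : ℝ × ℝ | 0 < q.2} ∩ (fun q : ℝ × ℝ => a + q.1 * q.2) ⁻¹' V := by
    ext ⟨x, y⟩
    simp only [mem_preimage, mem_ofPred_eq, Y_chart, mem_inter_iff]
    constructor
    · rintro ⟨h, h'⟩
      rw [F_chart N i a x y h] at h'
      exact ⟨h, h'⟩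
    · rintro ⟨h, h'⟩
      rw [F_chart N i a x y h]
      exact ⟨h, h'⟩
  rw [this]
  exact (isOpen_lt continuous_const continuous_snd).inter (hV.preimage (by fun_prop))

/-! ### The Hausdorff layers -/

/-- the layer `i` -/
def layer (i : Option I) : Set (M N) := ⋃ a : ℝ, Set.range (chart N (i, a))

lemma isOpen_layer (i : Option I) : IsOpen (layer N i) :=
  isOpen_iUnion fun a => (isOpenEmbedding_chart N (i, a)).isOpen_range

lemma sUnion_layer : ⋃₀ Set.range (layer N) = Set.univ := by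
  ext m
  simp only [mem_univ, iff_true]
  obtain ⟨i, a, x, y, rfl⟩ := exists_chart N m
  exact ⟨layer N i, ⟨i, rfl⟩, mem_iUnion.mpr ⟨a, ⟨(x, y), rfl⟩⟩⟩

lemma separate_layer (i : Option I) (p q : M N) (hp : p ∈ layer N i) (hq : q ∈ layer N i)
    (hne : p ≠ q) : ∃ U V : Set (M N), IsOpen U ∧ IsOpen V ∧ p ∈ U ∧ q ∈ V ∧ Disjoint U V := by
  by_cases hY : Y N p = Y N q
  swap
  · obtain ⟨U, V, hU, hV, hpU, hqV, hd⟩ := t2_separation hY
    exact ⟨Y N ⁻¹' U, Y N ⁻¹' V, hU.preimage (continuous_Y N), hV.preimage (continuous_Y N),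
      hpU, hqV, hd.preimage _⟩
  obtain ⟨a, ⟨x, y⟩, rfl⟩ := mem_iUnion.mp hp
  obtain ⟨b, ⟨x', y'⟩, rfl⟩ := mem_iUnion.mp hq
  simp only [Y_chart] at hY
  subst hY
  by_cases hab : a = b
  · subst hab
    have hne' : (x, y) ≠ (x', y) := fun h => hne (by rw [h])
    obtain ⟨U, V, hU, hV, hpU, hqV, hd⟩ := t2_separation hne'
    refine ⟨chart N (i, a) '' U, chart N (i, a) '' V, isOpenMap_chart N _ _ hU,
      isOpenMap_chart N _ _ hV, mem_image_of_mem _ hpU, mem_image_of_mem _ hqV, ?_⟩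
    exact (disjoint_image_iff (chart_injective N (i, a))).mpr hd
  by_cases hy : 0 < y
  · have hF : a + x * y ≠ b + x' * y := by
      intro h
      apply hne
      rw [chart_eq_iff]
      exact ⟨rfl, Or.inl rfl, Or.inr ⟨hy, h⟩⟩
    obtain ⟨U, V, hU, hV, hpU, hqV, hd⟩ := t2_separation hF
    refine ⟨_, _, isOpen_F N U hU, isOpen_F N V hV, ⟨hy, ?_⟩, ⟨hy, ?_⟩, ?_⟩
    · rw [F_chart N i a x y hy]; exact hpU
    · rw [F_chart N i b x' y hy]; exact hqV
    · rw [Set.disjoint_left]
      rintro m ⟨-, h1⟩ ⟨-, h2⟩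
      exact Set.disjoint_left.mp hd h1 h2
  · -- disjoint boxes
    push Not at hy
    set R : ℝ := |x| + |x'| + 1 with hR
    have hRpos : 0 < R := by positivity
    set δ : ℝ := |a - b| / (4 * R) with hδ
    have hab' : 0 < |a - b| := abs_pos.mpr (sub_ne_zero.mpr hab)
    have hδpos : 0 < δ := by positivity
    set B : Set (ℝ × ℝ) := {q | |q.1| < R ∧ q.2 < δ} with hB
    have hBo : IsOpen B := by
      have h1 : IsOpen {q : ℝ × ℝ | |q.1| < R} :=
        isOpen_lt (continuous_abs.comp continuous_fst) continuous_const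
      have h2 : IsOpen {q : ℝ × ℝ | q.2 < δ} := isOpen_lt continuous_snd continuous_const
      exact h1.inter h2
    refine ⟨chart N (i, a) '' B, chart N (i, b) '' B, isOpenMap_chart N _ _ hBo,
      isOpenMap_chart N _ _ hBo, mem_image_of_mem _ ?_, mem_image_of_mem _ ?_, ?_⟩
    · refine ⟨?_, ?_⟩
      · simp only [hR]; linarith [abs_nonneg x, abs_nonneg x']
      · simp only; linarith
    · refine ⟨?_, ?_⟩
      · simp only [hR]; linarith [abs_nonneg x, abs_nonneg x']
      · simp only; linarith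
    · rw [Set.disjoint_left]
      rintro m ⟨⟨u, v⟩, ⟨hu, hv⟩, rfl⟩ ⟨⟨u', v'⟩, ⟨hu', hv'⟩, h⟩
      rw [chart_eq_iff] at h
      obtain ⟨h1, -, h3⟩ := h
      simp only at h1 h3 hu hv hu' hv'
      subst h1
      rcases h3 with h3 | ⟨h3, h4⟩
      · exact hab h3.1.symm
      · have h5 : a - b = (u' - u) * v' := by linarith
        have h6 : |a - b| ≤ 2 * R * δ := by
          rw [h5, abs_mul, abs_of_pos h3]
          have h7 : |u' - u| ≤ 2 * R := by
            have := abs_sub u' u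
            linarith
          exact mul_le_mul h7 hv.le h3.le (by positivity)
        have h7 : 2 * R * δ = |a - b| / 2 := by
          rw [hδ]; field_simp; ring
        linarith

lemma t2_layer (i : Option I) : T2Space (layer N i) := by
  refine ⟨fun p q hne => ?_⟩
  obtain ⟨U, V, hU, hV, hp, hq, hd⟩ := separate_layer N i p q p.2 q.2
    (fun h => hne (Subtype.ext h))
  exact ⟨Subtype.val ⁻¹' U, Subtype.val ⁻¹' V, hU.preimage continuous_subtype_val,
    hV.preimage continuous_subtype_val, hp, hq, hd.preimage _⟩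

/-! ### Global properties -/

variable (hN : ∀ i, IsNowhereDense (N i))

include hN in
lemma dense_compl (i : Option I) : Dense (cN N i)ᶜ := by
  rw [← interior_eq_empty_iff_dense_compl]
  cases i with
  | none => exact interior_empty
  | some i => exact hN i

include hN in
lemma dense_compl₂ (i k : Option I) : Dense ((cN N i)ᶜ ∩ (cN N k)ᶜ) :=
  (dense_compl N hN i).inter_of_isOpen_left (dense_compl N hN k) (isClosed_cN N i).isOpen_compl

include hN in
lemma connectedSpace : ConnectedSpace (M N) := by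
  have hpre : IsPreconnected (Set.univ : Set (M N)) := by
    refine isPreconnected_of_forall (chart N (none, 0) (0, 1)) ?_
    intro m _
    obtain ⟨i, a, x, y, rfl⟩ := exists_chart N m
    obtain ⟨y1, hy1, hy1'⟩ := (dense_compl N hN i).exists_mem_open isOpen_Ioi (nonempty_Ioi (a := 0))
    refine ⟨Set.range (chart N (none, 0)) ∪ Set.range (chart N (i, a)), subset_univ _,
      Or.inl ⟨_, rfl⟩, Or.inr ⟨_, rfl⟩, ?_⟩
    refine IsPreconnected.union (chart N (i, a) (0, y1)) ⟨(a / y1, y1), ?_⟩ ⟨_, rfl⟩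
      (isPreconnected_range (continuous_chart N _)) (isPreconnected_range (continuous_chart N _))
    rw [chart_eq_iff]
    refine ⟨rfl, Or.inr ⟨id, hy1⟩, Or.inr ⟨hy1', ?_⟩⟩
    have : y1 ≠ 0 := ne_of_gt hy1'
    simp only
    field_simp
    ring
  exact { isPreconnected_univ := hpre, toNonempty := ⟨chart N (none, 0) (0, 1)⟩ }

/-- the plane is `ℝ²` -/
noncomputable def planeHomeo : EuclideanSpace ℝ (Fin 2) ≃ₜ ℝ × ℝ :=
  (EuclideanSpace.equiv (Fin 2) ℝ).toHomeomorph.trans Homeomorph.finTwoArrow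

lemma range_chart_homeo (j : Option I × ℝ) :
    Nonempty (Set.range (chart N j) ≃ₜ EuclideanSpace ℝ (Fin 2)) :=
  ⟨(planeHomeo.trans (isOpenEmbedding_chart N j).toIsEmbedding.toHomeomorph).symm⟩

include hN in
lemma topManifold : TopManifold 2 (M N) where
  connected := connectedSpace N hN
  chart := by
    intro m
    obtain ⟨i, a, x, y, rfl⟩ := exists_chart N m
    exact ⟨_, (isOpenEmbedding_chart N (i, a)).isOpen_range, ⟨_, rfl⟩, range_chart_homeo N _⟩

variable (hcov : ∀ y : ℝ, ∃ i, y ∈ N i)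

include hN hcov in
lemma enh : EverywhereNonHausdorff (M N) := by
  intro m
  obtain ⟨i, a, x, y, rfl⟩ := exists_chart N m
  have hex : ∃ k : Option I, i ≠ k ∧ (y ∈ cN N i ∨ y ∈ cN N k) := by
    by_cases h : y ∈ cN N i
    · refine ⟨none, ?_, Or.inl h⟩
      rintro rfl
      exact h
    · obtain ⟨k, hk⟩ := hcov y
      have hk' : y ∈ cN N (some k) := subset_closure hk
      refine ⟨some k, ?_, Or.inr hk'⟩
      rintro rfl
      exact h hk'
  obtain ⟨k, hik, hk⟩ := hex
  refine ⟨chart N (k, a) (x, y), ?_, ?_⟩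
  · intro h
    rw [chart_eq_iff] at h
    obtain ⟨-, h2, -⟩ := h
    rcases h2 with h2 | h2
    · exact hik h2.symm
    · rcases hk with hk | hk
      · exact h2.2 hk
      · exact h2.1 hk
  · intro U V hU hV hxU hxV
    have hW : IsOpen (chart N (i, a) ⁻¹' U ∩ chart N (k, a) ⁻¹' V) :=
      (hU.preimage (continuous_chart N _)).inter (hV.preimage (continuous_chart N _))
    have hc : Continuous fun t : ℝ => (x, t) := by fun_prop
    have hW' := hW.preimage hc
    obtain ⟨t, ht, ht'⟩ := (dense_compl₂ N hN i k).exists_mem_open hW' ⟨y, hxU, hxV⟩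
    refine ⟨chart N (i, a) (x, t), ht'.1, ?_⟩
    have : chart N (i, a) (x, t) = chart N (k, a) (x, t) := by
      rw [chart_eq_iff]
      exact ⟨rfl, Or.inr ht, Or.inl ⟨rfl, rfl⟩⟩
    rw [this]
    exact ht'.2

lemma openHausNumber_le : openHausNumber (M N) ≤ #(Option I) := by
  refine (csInf_le' ?_).trans (mk_range_le (f := layer N))
  refine ⟨Set.range (layer N), rfl, ?_, sUnion_layer N⟩
  rintro _ ⟨i, rfl⟩
  exact ⟨isOpen_layer N i, t2_layer N i⟩

/-- continuum many disjoint open sets -/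
def P (a : ℝ) : Set (M N) := chart N (none, a) '' {q | q.2 < 0}

lemma isOpen_P (a : ℝ) : IsOpen (P N a) :=
  isOpenMap_chart N _ _ (isOpen_lt continuous_snd continuous_const)

lemma P_disjoint : Pairwise (Function.onFun Disjoint (P N)) := by
  intro a b hab
  rw [Function.onFun, Set.disjoint_left]
  rintro m ⟨⟨u, v⟩, hu, rfl⟩ ⟨⟨u', v'⟩, hu', h⟩
  rw [chart_eq_iff] at h
  obtain ⟨-, -, h3⟩ := h
  rcases h3 with h3 | h3
  · exact hab h3.1.symm
  · have h4 : v' < 0 := hu'
    have h5 : 0 < v' := h3.1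
    linarith

lemma countable_meet (U : Set (M N))
    (h : Nonempty (U ≃ₜ EuclideanSpace ℝ (Fin 2))) : {a | (P N a ∩ U).Nonempty}.Countable := by
  obtain ⟨h⟩ := h
  have : SecondCountableTopology U := h.secondCountableTopology
  apply Set.PairwiseDisjoint.countable_of_isOpen (α := U) (s := fun a => Subtype.val ⁻¹' P N a)
  · intro a _ b _ hab
    exact (P_disjoint N hab).preimage _
  · intro a _
    exact (isOpen_P N a).preimage continuous_subtype_val
  · rintro a ⟨m, hm, hm'⟩
    exact ⟨⟨m, hm'⟩, hm⟩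

lemma continuum_le_euclNumber : 𝔠 ≤ euclNumber 2 (M N) := by
  apply le_csInf
  · refine ⟨_, Set.range fun j => Set.range (chart N j), rfl, ?_, ?_⟩
    · rintro _ ⟨j, rfl⟩
      exact ⟨(isOpenEmbedding_chart N j).isOpen_range, range_chart_homeo N j⟩
    · ext m
      simp only [mem_univ, iff_true]
      obtain ⟨i, a, x, y, rfl⟩ := exists_chart N m
      exact ⟨_, ⟨(i, a), rfl⟩, ⟨_, rfl⟩⟩
  · rintro κ ⟨𝒰, rfl, hU, hcovU⟩
    by_contra hlt
    push Not at hlt
    have h1 : (⋃ U : 𝒰, {a : ℝ | (P N a ∩ U).Nonempty}) = Set.univ := by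
      ext a
      simp only [mem_univ, iff_true, mem_iUnion]
      have hm : chart N (none, a) (0, -1) ∈ ⋃₀ 𝒰 := by rw [hcovU]; trivial
      obtain ⟨U, hU', hmU⟩ := hm
      refine ⟨⟨U, hU'⟩, _, ⟨(0, -1), ?_, rfl⟩, hmU⟩
      show (-1 : ℝ) < 0
      norm_num
    have h2 : #(⋃ U : 𝒰, {a : ℝ | (P N a ∩ U).Nonempty}) ≤ #𝒰 * ℵ₀ := by
      refine (mk_iUnion_le _).trans (mul_le_mul_right (ciSup_le' fun U => ?_) _)
      exact (countable_meet N U.1 (hU U.1 U.2).2).le_aleph0
    rw [h1, mk_univ, mk_real] at h2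
    have h3 : #𝒰 * ℵ₀ < 𝔠 := mul_lt_of_lt aleph0_le_continuum hlt aleph0_lt_continuum
    exact absurd h2 (not_le.mpr h3)

end Pool.Agent.Lib.MP_434b1a_gt.Construct
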