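import Pool.Agent.Lib.MP_434b1a_gt.DimOne

/-!
Non-Hausdorff manifolds which are homogeneous continuously on a comeager set of a chart: the open
Hausdorff cover number is at least the continuum.
-/

namespace Pool.Agent.Lib.MP_434b1a_gt.ContHom

open Cardinal Topology Filter Set

variable {M : Type} [TopologicalSpace M] {E : Type} [NormedAddCommGroup E]

/-- one step of the Cantor scheme -/
lemma exists_step {φ : E → M} {g : E → M ≃ₜ M} {p y0 : M} {C O : Set E} (hφ : IsOpenEmbedding φ)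
    (hC : Dense C) (hO : IsOpen O) (hCO : C ⊆ O) (hg : ∀ v ∈ C, g v p = φ v)
    (hc : ContinuousOn (fun q : E × E => (g q.1).symm (φ q.2)) (C ×ˢ C))
    (hns : NotSeparated p y0) {V : Set M} (hV : IsOpen V) (hy : y0 ∈ V) {c : E} (hcC : c ∈ C)
    {ρ : ℝ} (hρ : 0 < ρ) :
    ∃ (c' : E) (ρ' : ℝ), c' ∈ C ∧ 0 < ρ' ∧ ρ' ≤ ρ ∧
      Metric.closedBall c' ρ' ⊆ Metric.closedBall c ρ ∧
      Metric.closedBall c ρ' ⊆ O ∧ Metric.closedBall c' ρ' ⊆ O ∧
      ∀ x ∈ Metric.closedBall c ρ', x ∈ C → ∀ w ∈ Metric.closedBall c' ρ', w ∈ C →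
        (g x).symm (φ w) ∈ V := by
  have hA : (((fun w => (g c).symm (φ w)) ⁻¹' V) ∩ Metric.ball c ρ).Nonempty := by
    have h1 : IsOpen ((g c) ⁻¹' (φ '' Metric.ball c ρ)) :=
      (hφ.isOpenMap _ Metric.isOpen_ball).preimage (g c).continuous
    obtain ⟨z, ⟨w, hw, hw'⟩, hz2⟩ := hns _ V h1 hV
      (by rw [mem_preimage, hg c hcC]; exact ⟨c, Metric.mem_ball_self hρ, rfl⟩) hy
    refine ⟨w, ?_, hw⟩
    rw [mem_preimage, hw', Homeomorph.symm_apply_apply]
    exact hz2
  have hAo : IsOpen (((fun w => (g c).symm (φ w)) ⁻¹' V) ∩ Metric.ball c ρ) :=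
    (hV.preimage ((g c).symm.continuous.comp hφ.continuous)).inter Metric.isOpen_ball
  obtain ⟨w0, ⟨hz, hw0⟩, hw0C⟩ := hC.inter_open_nonempty _ hAo hA
  have hmem := hc (c, w0) ⟨hcC, hw0C⟩ (hV.mem_nhds hz)
  rw [mem_map, Metric.mem_nhdsWithin_iff] at hmem
  obtain ⟨ε, hε, hball⟩ := hmem
  obtain ⟨ε1, hε1, hb1⟩ := Metric.isOpen_iff.1 hO c (hCO hcC)
  obtain ⟨ε2, hε2, hb2⟩ := Metric.isOpen_iff.1 hO w0 (hCO hw0C)
  have hd : dist w0 c < ρ := hw0
  have hd' : 0 < ρ - dist w0 c := by linarith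
  obtain ⟨r, hr, hr0, hr1, hr2, hr3, hr4⟩ : ∃ r : ℝ, 0 < r ∧ r ≤ ρ ∧ r ≤ ρ - dist w0 c ∧ r < ε ∧
      r < ε1 ∧ r < ε2 := by
    refine ⟨min (ρ - dist w0 c) (min (ε / 2) (min (ε1 / 2) (ε2 / 2))), ?_, ?_, ?_, ?_, ?_, ?_⟩
    · exact lt_min hd' (lt_min (half_pos hε) (lt_min (half_pos hε1) (half_pos hε2)))
    · have := dist_nonneg (x := w0) (y := c)
      exact (min_le_left _ _).trans (by linarith)
    · exact min_le_left _ _
    · exact ((min_le_right _ _).trans (min_le_left _ _)).trans_lt (half_lt_self hε)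
    · exact (((min_le_right _ _).trans (min_le_right _ _)).trans (min_le_left _ _)).trans_lt
        (half_lt_self hε1)
    · exact (((min_le_right _ _).trans (min_le_right _ _)).trans (min_le_right _ _)).trans_lt
        (half_lt_self hε2)
  refine ⟨w0, r, hw0C, hr, hr0, ?_, ?_, ?_, ?_⟩
  · apply Metric.closedBall_subset_closedBall'
    linarith
  · exact (Metric.closedBall_subset_ball hr3).trans hb1
  · exact (Metric.closedBall_subset_ball hr4).trans hb2
  · intro x hx hxC w hw hwC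
    rw [Metric.mem_closedBall] at hx hw
    have h4 : (x, w) ∈ Metric.ball (c, w0) ε := by
      rw [Metric.mem_ball, Prod.dist_eq]
      exact max_lt (by simp only; linarith) (by simp only; linarith)
    exact hball ⟨h4, hxC, hwC⟩

/-- a family of points of the chart, indexed by the Cantor set, any two of which are in conflict -/
lemma exists_scheme [ProperSpace E] {φ : E → M} {g : E → M ≃ₜ M} {p y0 : M} {C : Set E}
    {O : ℕ → Set E} (hφ : IsOpenEmbedding φ) (hC : Dense C) (hO : ∀ k, IsOpen (O k))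
    (hCO : C = ⋂ k, O k) (hg : ∀ v ∈ C, g v p = φ v)
    (hc : ContinuousOn (fun q : E × E => (g q.1).symm (φ q.2)) (C ×ˢ C))
    (hns : NotSeparated p y0) (V : ℕ → Set M) (hV : ∀ m, IsOpen (V m)) (hy : ∀ m, y0 ∈ V m) :
    ∃ x : (ℕ → Bool) → E, (∀ t, x t ∈ C) ∧ ∀ (t t' : ℕ → Bool) (k : ℕ), (∀ j < k, t j = t' j) →
      t k = false → t' k = true → (g (x t)).symm (φ (x t')) ∈ V k := by
  have hstep : ∀ (m : ℕ) (S : C × {ρ : ℝ // 0 < ρ}), ∃ S' : C × {ρ : ℝ // 0 < ρ},
      S'.2.1 ≤ S.2.1 ∧ Metric.closedBall S'.1.1 S'.2.1 ⊆ Metric.closedBall S.1.1 S.2.1 ∧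
      Metric.closedBall S.1.1 S'.2.1 ⊆ O m ∧ Metric.closedBall S'.1.1 S'.2.1 ⊆ O m ∧
        ∀ x ∈ Metric.closedBall S.1.1 S'.2.1, x ∈ C → ∀ w ∈ Metric.closedBall S'.1.1 S'.2.1,
          w ∈ C → (g x).symm (φ w) ∈ V m := by
    intro m S
    obtain ⟨c', ρ', h0, h1, h2, h3, h4, h5, h6⟩ := exists_step hφ hC (hO m)
      (hCO.subset.trans (iInter_subset _ m)) hg hc hns (hV m) (hy m) S.1.2 S.2.2
    exact ⟨(⟨c', h0⟩, ⟨ρ', h1⟩), h2, h3, h4, h5, h6⟩
  choose nx hnx1 hnx2 hnx3 hnx4 hnx5 using hstep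
  obtain ⟨c0, hc0⟩ := hC.nonempty
  let st : (ℕ → Bool) → ℕ → C × {ρ : ℝ // 0 < ρ} := fun t k =>
    Nat.rec (⟨c0, hc0⟩, ⟨1, one_pos⟩)
      (fun k S => (if t k then (nx k S).1 else S.1, (nx k S).2)) k
  have st_succ : ∀ t k, st t (k + 1) =
      (if t k then (nx k (st t k)).1 else (st t k).1, (nx k (st t k)).2) := fun t k => rfl
  have hnest : ∀ t k, Metric.closedBall (st t (k + 1)).1.1 (st t (k + 1)).2.1 ⊆
      Metric.closedBall (st t k).1.1 (st t k).2.1 := by
    intro t k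
    rw [st_succ]
    cases h : t k with
    | true => simpa using hnx2 k (st t k)
    | false => simpa using Metric.closedBall_subset_closedBall (hnx1 k (st t k))
  have hOk : ∀ t k, Metric.closedBall (st t (k + 1)).1.1 (st t (k + 1)).2.1 ⊆ O k := by
    intro t k
    rw [st_succ]
    cases h : t k with
    | true => simpa using hnx4 k (st t k)
    | false => simpa using hnx3 k (st t k)
  have hint : ∀ t, (⋂ k, Metric.closedBall (st t k).1.1 (st t k).2.1).Nonempty := by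
    intro t
    refine IsCompact.nonempty_iInter_of_sequence_nonempty_isCompact_isClosed _ (hnest t)
      (fun k => ⟨_, Metric.mem_closedBall_self (st t k).2.2.le⟩) (isCompact_closedBall _ _)
      (fun k => Metric.isClosed_closedBall)
  choose x hx using hint
  have hxC : ∀ t, x t ∈ C := by
    intro t
    rw [hCO]
    exact mem_iInter.2 (fun k => hOk t k (mem_iInter.1 (hx t) (k + 1)))
  refine ⟨x, hxC, fun t t' k hj ht ht' => ?_⟩
  have hst : ∀ j ≤ k, st t j = st t' j := by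
    intro j
    induction j with
    | zero => intro _; rfl
    | succ j ih =>
      intro hjk
      rw [st_succ, st_succ, ih (by omega), hj j (by omega)]
  have hxt := mem_iInter.1 (hx t) (k + 1)
  have hxt' := mem_iInter.1 (hx t') (k + 1)
  rw [st_succ, ht] at hxt
  rw [st_succ, ht', ← hst k le_rfl] at hxt'
  exact hnx5 k (st t k) _ (by simpa using hxt) (hxC t) _ (by simpa using hxt') (hxC t')

theorem continuum_le [ProperSpace E] {φ : E → M} {g : E → M ≃ₜ M} {p y0 : M}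
    [FirstCountableTopology M] (hφ : IsOpenEmbedding φ) {C : Set E} (hCr : C ∈ residual E)
    (hgC : ∀ v ∈ C, g v p = φ v)
    (hcC : ContinuousOn (fun q : E × E => (g q.1).symm (φ q.2)) (C ×ˢ C)) (hne : y0 ≠ p)
    (hns : NotSeparated p y0) (𝒰 : Set (Set M)) (h𝒰 : ∀ U ∈ 𝒰, IsOpen U ∧ T2Space U)
    (hcov : ⋃₀ 𝒰 = Set.univ) : 𝔠 ≤ #𝒰 := by
  classical
  obtain ⟨D, hDC, hDG, hD⟩ := mem_residual.1 hCr
  obtain ⟨O, hO, hDO⟩ := isGδ_iff_eq_iInter_nat.1 hDG
  have hg : ∀ v ∈ D, g v p = φ v := fun v hv => hgC v (hDC hv)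
  have hc : ContinuousOn (fun q : E × E => (g q.1).symm (φ q.2)) (D ×ˢ D) :=
    hcC.mono (prod_mono hDC hDC)
  obtain ⟨B, hB⟩ := (𝓝 y0).exists_antitone_basis
  let V : ℕ → Set M := fun m => interior (B m)
  have hVo : ∀ m, IsOpen (V m) := fun m => isOpen_interior
  have hVy : ∀ m, y0 ∈ V m := fun m => mem_interior_iff_mem_nhds.2 (hB.mem m)
  have hVanti : Antitone V := fun a b hab => interior_mono (hB.antitone hab)
  obtain ⟨x, hxD, hx⟩ := exists_scheme hφ hD hO hDO hg hc hns V hVo hVy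
  have hU : ∀ t : ℕ → Bool, ∃ (U : 𝒰) (m : ℕ), g (x t) '' V m ⊆ U := by
    intro t
    have h1 : g (x t) y0 ∈ ⋃₀ 𝒰 := by rw [hcov]; trivial
    obtain ⟨U, hU, hyU⟩ := h1
    have h2 : (g (x t)) ⁻¹' U ∈ 𝓝 y0 :=
      (g (x t)).continuous.continuousAt.preimage_mem_nhds ((h𝒰 U hU).1.mem_nhds hyU)
    obtain ⟨m, -, hm⟩ := hB.toHasBasis.mem_iff.1 h2
    refine ⟨⟨U, hU⟩, m, ?_⟩
    rintro _ ⟨z, hz, rfl⟩
    exact hm (interior_subset hz)
  choose U m hUm using hU
  have hbad : ∀ (t t' : ℕ → Bool), U t = U t' → g (x t) '' V (m t) ⊆ U t →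
      (g (x t)).symm (φ (x t')) ∈ V (m t) → False := by
    intro t t' hUt hsub hmem
    have h1 : φ (x t') ∈ (U t : Set M) :=
      hsub ⟨_, hmem, Homeomorph.apply_symm_apply _ _⟩
    have h2 : g (x t') y0 ∈ (U t : Set M) := by
      rw [hUt]
      exact hUm t' ⟨y0, hVy _, rfl⟩
    obtain ⟨hUo, hUT⟩ := h𝒰 (U t) (U t).2
    obtain ⟨P, Q, hP, hQ, hxP, hyQ, hd⟩ :=
      t2_separation (x := (⟨φ (x t'), h1⟩ : (U t : Set M))) (y := ⟨g (x t') y0, h2⟩)
        (fun h => hne ((g (x t')).injective (by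
          rw [hg _ (hxD t')]
          exact (congrArg Subtype.val h).symm)))
    have hP' := hUo.isOpenMap_subtype_val _ hP
    have hQ' := hUo.isOpenMap_subtype_val _ hQ
    obtain ⟨z, hz1, hz2⟩ := hns ((g (x t')) ⁻¹' (Subtype.val '' P)) ((g (x t')) ⁻¹' (Subtype.val '' Q))
      (hP'.preimage (g (x t')).continuous) (hQ'.preimage (g (x t')).continuous)
      (by rw [mem_preimage, hg _ (hxD t')]; exact ⟨_, hxP, rfl⟩)
      (by rw [mem_preimage]; exact ⟨_, hyQ, rfl⟩)
    obtain ⟨v, hv, hv'⟩ := hz1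
    obtain ⟨w, hw, hw'⟩ := hz2
    have : v = w := Subtype.ext (hv'.trans hw'.symm)
    subst this
    exact Set.disjoint_left.mp hd hv hw
  have hinj : Function.Injective (fun t : ℕ → Bool => (U t, (List.range (m t)).map t)) := by
    intro t t' htt
    simp only [Prod.mk.injEq] at htt
    obtain ⟨hUt, hl⟩ := htt
    by_contra hne'
    have hmm : m t = m t' := by
      have := congrArg List.length hl
      simpa using this
    have hag : ∀ j < m t, t j = t' j := by
      intro j hj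
      have h1 := congrArg (fun l => l[j]?) hl
      simp only [List.getElem?_map] at h1
      rw [List.getElem?_range hj, List.getElem?_range (by omega)] at h1
      simpa using h1
    have hex : ∃ k, t k ≠ t' k := by
      by_contra hcon
      push Not at hcon
      exact hne' (funext hcon)
    have hk := Nat.find_spec hex
    have hkmin : ∀ j < Nat.find hex, t j = t' j := fun j hj => by
      by_contra hcon
      exact Nat.find_min hex hj hcon
    have hkm : m t ≤ Nat.find hex := by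
      by_contra hcon
      push Not at hcon
      exact hk (hag _ hcon)
    cases h1 : t (Nat.find hex) with
    | false =>
      cases h2 : t' (Nat.find hex) with
      | false => exact hk (h1.trans h2.symm)
      | true =>
        exact hbad t t' hUt (hUm t) (hVanti hkm (hx t t' _ hkmin h1 h2))
    | true =>
      cases h2 : t' (Nat.find hex) with
      | true => exact hk (h1.trans h2.symm)
      | false =>
        refine hbad t' t hUt.symm (hUm t') (hVanti (hmm ▸ hkm) (hx t' t _ (fun j hj =>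
          (hkmin j hj).symm) h2 h1))
  have h1 : #(ℕ → Bool) ≤ #(𝒰 × List Bool) := mk_le_of_injective hinj
  have h2 : 𝔠 ≤ #𝒰 * ℵ₀ := by
    rw [mk_prod, lift_id, lift_id] at h1
    have h3 : #(ℕ → Bool) = 𝔠 := by simp
    have h4 : #(List Bool) = ℵ₀ := by simp
    rwa [h3, h4] at h1
  by_contra h3
  push Not at h3
  exact absurd h2 (not_le.mpr (mul_lt_of_lt aleph0_le_continuum h3 aleph0_lt_continuum))

/-- `M` is homogeneous continuously on a comeager set of a chart: there are a point `p`, an open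
embedding `φ : ℝ^n → M`, a comeager set `C ⊆ ℝ^n` and homeomorphisms `g v` of `M` onto itself with
`g v p = φ v` for `v ∈ C`, such that `(g v)⁻¹ (φ w)` is a continuous function of
`(v, w) ∈ C × C`. -/
def ContinuousInChart (n : ℕ) (M : Type) [TopologicalSpace M] : Prop :=
  ∃ (p : M) (φ : EuclideanSpace ℝ (Fin n) → M) (C : Set (EuclideanSpace ℝ (Fin n)))
    (g : EuclideanSpace ℝ (Fin n) → M ≃ₜ M),
    IsOpenEmbedding φ ∧ C ∈ residual (EuclideanSpace ℝ (Fin n)) ∧ (∀ v ∈ C, g v p = φ v) ∧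
      ContinuousOn (fun q : EuclideanSpace ℝ (Fin n) × EuclideanSpace ℝ (Fin n) =>
        (g q.1).symm (φ q.2)) (C ×ˢ C)

lemma enh_of_homogeneous (hNH : ¬ T2Space M) (hhom : ∀ x y : M, ∃ h : M ≃ₜ M, h x = y) :
    EverywhereNonHausdorff M := by
  have hns : ∃ p q : M, p ≠ q ∧ NotSeparated p q := by
    by_contra hcon
    push Not at hcon
    refine hNH ⟨fun p q hpq => ?_⟩
    have h1 := hcon p q hpq
    simp only [NotSeparated] at h1
    push Not at h1
    obtain ⟨U, V, hU, hV, hpU, hqV, hUV⟩ := h1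
    exact ⟨U, V, hU, hV, hpU, hqV, Set.disjoint_iff_inter_eq_empty.2 hUV⟩
  obtain ⟨p, q, hpq, hns⟩ := hns
  intro x
  obtain ⟨h, rfl⟩ := hhom p x
  refine ⟨h q, fun e => hpq (h.injective e).symm, fun U V hU hV hpU hqV => ?_⟩
  obtain ⟨z, hz⟩ := hns (h ⁻¹' U) (h ⁻¹' V) (hU.preimage h.continuous) (hV.preimage h.continuous)
    hpU hqV
  exact ⟨h z, hz⟩

theorem main {n : ℕ} (hm : TopManifold n M) (hc : ContinuousInChart n M)
    (hM : EverywhereNonHausdorff M ∨ (¬ T2Space M ∧ ∀ x y : M, ∃ h : M ≃ₜ M, h x = y)) :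
    𝔠 ≤ openHausNumber M ∧ euclNumber n M = openHausNumber M := by
  have hE : EverywhereNonHausdorff M := by
    rcases hM with h | ⟨h1, h2⟩
    · exact h
    · exact enh_of_homogeneous h1 h2
  have := Size.firstCountable hm
  obtain ⟨p, φ, C, g, hφ, hC, hg, hcont⟩ := hc
  obtain ⟨y0, hne, hns⟩ := hE p
  obtain ⟨𝒰, hcard, h𝒰, hcov⟩ := Size.exists_haus_cover hm
  have h2 : 𝔠 ≤ #𝒰 := continuum_le hφ hC hg hcont hne hns 𝒰 h𝒰 hcov
  refine ⟨by rw [← hcard]; exact h2, le_antisymm ?_ (DimOne.openHausNumber_le_euclNumber hm)⟩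
  have h3 : #M ≤ max ℵ₀ (#𝒰 * 𝔠) := Size.mk_le hm 𝒰 h𝒰 hcov
  have h4 : #𝒰 * 𝔠 ≤ #𝒰 :=
    (mul_le_mul' le_rfl h2).trans (mul_eq_self (aleph0_le_continuum.trans h2)).le
  have h5 : #M ≤ #𝒰 := h3.trans (max_le (aleph0_le_continuum.trans h2) h4)
  rw [← hcard]
  exact (Size.euclNumber_le hm).trans h5

end Pool.Agent.Lib.MP_434b1a_gt.ContHom
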