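import Mathlib

/-!
Everywhere non-Hausdorff manifolds: definitions.
-/

namespace Pool.Agent.Lib.MP_434b1a_gt

open Cardinal

/-- `M` is a (possibly non-Hausdorff) manifold of dimension `n`: a connected space in which every
point has an open neighbourhood homeomorphic to `ℝ^n`. -/
structure TopManifold (n : ℕ) (M : Type) [TopologicalSpace M] : Prop where
  connected : ConnectedSpace M
  chart : ∀ x : M, ∃ U : Set M, IsOpen U ∧ x ∈ U ∧ Nonempty (U ≃ₜ EuclideanSpace ℝ (Fin n))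

/-- `x` and `y` have no disjoint open neighbourhoods. -/
def NotSeparated {M : Type} [TopologicalSpace M] (x y : M) : Prop :=
  ∀ U V : Set M, IsOpen U → IsOpen V → x ∈ U → y ∈ V → (U ∩ V).Nonempty

/-- Every point `x` has some `y ≠ x` from which it cannot be separated. -/
def EverywhereNonHausdorff (M : Type) [TopologicalSpace M] : Prop :=
  ∀ x : M, ∃ y : M, y ≠ x ∧ NotSeparated x y

/-- `𝓔(M)`: least cardinality of a cover of `M` by open subsets homeomorphic to `ℝ^n`. -/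
noncomputable def euclNumber (n : ℕ) (M : Type) [TopologicalSpace M] : Cardinal.{0} :=
  sInf {κ | ∃ 𝒰 : Set (Set M), #𝒰 = κ ∧
    (∀ U ∈ 𝒰, IsOpen U ∧ Nonempty (U ≃ₜ EuclideanSpace ℝ (Fin n))) ∧ ⋃₀ 𝒰 = Set.univ}

/-- `𝓞𝓗(M)`: least cardinality of a cover of `M` by open Hausdorff subspaces. -/
noncomputable def openHausNumber (M : Type) [TopologicalSpace M] : Cardinal.{0} :=
  sInf {κ | ∃ 𝒰 : Set (Set M), #𝒰 = κ ∧ (∀ U ∈ 𝒰, IsOpen U ∧ T2Space U) ∧ ⋃₀ 𝒰 = Set.univ}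

/-- `cov(𝓑)`: least cardinality of a family of nowhere dense sets with union `ℝ`. -/
noncomputable def covB : Cardinal.{0} :=
  sInf {κ | ∃ 𝒩 : Set (Set ℝ), #𝒩 = κ ∧ (∀ N ∈ 𝒩, IsNowhereDense N) ∧ ⋃₀ 𝒩 = Set.univ}

end Pool.Agent.Lib.MP_434b1a_gt
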