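import Pool.Agent.Lib.MP_434b1a_gt.Size

/-!
One-dimensional homogeneous non-Hausdorff manifolds.
-/

namespace Pool.Agent.Lib.MP_434b1a_gt.DimOne

open Cardinal Topology Filter Set

variable {M : Type} [TopologicalSpace M]

/-- a chart of a line around `x` whose positive side converges also to some point `y ≠ x` -/
def OneSided (x : M) : Prop :=
  ∃ (φ : ℝ → M) (a : ℝ) (y : M), IsOpenEmbedding φ ∧ φ a = x ∧ y ≠ x ∧ Tendsto φ (𝓝[>] a) (𝓝 y)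

lemma oneSided_of_left {φ : ℝ → M} {a : ℝ} {y : M} (hφ : IsOpenEmbedding φ) (hy : y ≠ φ a)
    (h : Tendsto φ (𝓝[<] a) (𝓝 y)) : OneSided (φ a) := by
  refine ⟨fun t => φ (-t), -a, y, hφ.comp (Homeomorph.neg ℝ).isOpenEmbedding, by simp, hy, ?_⟩
  exact h.comp (tendsto_neg_nhdsGT_neg (a := a))

lemma OneSided.map (h : M ≃ₜ M) {x : M} (hx : OneSided x) : OneSided (h x) := by
  obtain ⟨φ, a, y, hφ, rfl, hy, ht⟩ := hx
  exact ⟨fun t => h (φ t), a, h y, h.isOpenEmbedding.comp hφ, rfl,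
    fun e => hy (h.injective e), (h.continuous.tendsto y).comp ht⟩

lemma countable_right (O : Set ℝ) : {s : ℝ | s ∉ O ∧ ∃ b, s < b ∧ Ioo s b ⊆ O}.Countable := by
  classical
  have hex : ∀ s : ℝ, ∃ b : ℝ, (s ∉ O ∧ ∃ b, s < b ∧ Ioo s b ⊆ O) → s < b ∧ Ioo s b ⊆ O := by
    intro s
    by_cases h : s ∉ O ∧ ∃ b, s < b ∧ Ioo s b ⊆ O
    · obtain ⟨b, hb⟩ := h.2
      exact ⟨b, fun _ => hb⟩
    · exact ⟨0, fun h' => absurd h' h⟩
  choose b hb using hex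
  refine Set.PairwiseDisjoint.countable_of_isOpen (s := fun s => Ioo s (b s)) ?_
    (fun _ _ => isOpen_Ioo) (fun s hs => nonempty_Ioo.2 (hb s hs).1)
  intro s hs s' hs' hne
  rw [Function.onFun, Set.disjoint_left]
  intro z hz hz'
  rcases lt_or_gt_of_ne hne with hlt | hlt
  · exact hs'.1 ((hb s hs).2 ⟨hlt, hz'.1.trans hz.2⟩)
  · exact hs.1 ((hb s' hs').2 ⟨hlt, hz.1.trans hz'.2⟩)

lemma countable_left (O : Set ℝ) : {s : ℝ | s ∉ O ∧ ∃ b, b < s ∧ Ioo b s ⊆ O}.Countable := by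
  classical
  have hex : ∀ s : ℝ, ∃ b : ℝ, (s ∉ O ∧ ∃ b, b < s ∧ Ioo b s ⊆ O) → b < s ∧ Ioo b s ⊆ O := by
    intro s
    by_cases h : s ∉ O ∧ ∃ b, b < s ∧ Ioo b s ⊆ O
    · obtain ⟨b, hb⟩ := h.2
      exact ⟨b, fun _ => hb⟩
    · exact ⟨0, fun h' => absurd h' h⟩
  choose b hb using hex
  refine Set.PairwiseDisjoint.countable_of_isOpen (s := fun s => Ioo (b s) s) ?_
    (fun _ _ => isOpen_Ioo) (fun s hs => nonempty_Ioo.2 (hb s hs).1)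
  intro s hs s' hs' hne
  rw [Function.onFun, Set.disjoint_left]
  intro z hz hz'
  rcases lt_or_gt_of_ne hne with hlt | hlt
  · exact hs.1 ((hb s' hs').2 ⟨hz'.1.trans hz.2, hlt⟩)
  · exact hs'.1 ((hb s hs).2 ⟨hz.1.trans hz'.2, hlt⟩)

/-- the transition map between two lines -/
lemma exists_transition {φ ψ : ℝ → M} (hφ : IsOpenEmbedding φ) (hψ : IsOpenEmbedding ψ) :
    ∃ f : ℝ → ℝ, (∀ s, φ s ∈ range ψ → ψ (f s) = φ s) ∧
      ContinuousOn f (φ ⁻¹' range ψ) ∧ InjOn f (φ ⁻¹' range ψ) := by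
  classical
  have h1 : ∀ s, φ s ∈ range ψ → ψ (Function.invFun ψ (φ s)) = φ s := by
    rintro s ⟨t, ht⟩
    exact Function.invFun_eq ⟨t, ht⟩
  refine ⟨fun s => Function.invFun ψ (φ s), h1, ?_, ?_⟩
  · intro s hs
    rw [ContinuousWithinAt, hψ.isInducing.tendsto_nhds_iff]
    have h2 : Tendsto φ (𝓝[φ ⁻¹' range ψ] s) (𝓝 (ψ (Function.invFun ψ (φ s)))) := by
      rw [h1 s hs]
      exact hφ.continuous.continuousWithinAt
    refine h2.congr' ?_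
    filter_upwards [self_mem_nhdsWithin] with r hr
    exact (h1 r hr).symm
  · intro s hs t ht hst
    have h3 := congrArg ψ hst
    simp only at h3
    rw [h1 s hs, h1 t ht] at h3
    exact hφ.injective h3

/-- two lines which are glued arbitrarily close to both origins have a one-sided point -/
lemma exists_oneSided_pos {φ ψ : ℝ → M} (hφ : IsOpenEmbedding φ) (hψ : IsOpenEmbedding ψ)
    (h0 : φ 0 ∉ range ψ) (h0' : ψ 0 ∉ range φ)
    (h : ∀ ε > 0, ∃ s t : ℝ, 0 < s ∧ s < ε ∧ 0 < t ∧ t < ε ∧ φ s = ψ t) : ∃ x : M, OneSided x := by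
  obtain ⟨f, hf1, hf2, hf3⟩ := exists_transition hφ hψ
  obtain ⟨s1, t1, hs1, hs1', ht1, ht1', e1⟩ := h 1 one_pos
  obtain ⟨s2, t2, hs2, hs2', ht2, ht2', e2⟩ := h (min s1 t1) (lt_min hs1 ht1)
  have hs21 : s2 < s1 := hs2'.trans_le (min_le_left _ _)
  have ht21 : t2 < t1 := ht2'.trans_le (min_le_right _ _)
  have hfs : ∀ s t, φ s = ψ t → f s = t := by
    intro s t e
    exact hψ.injective ((hf1 s ⟨t, e.symm⟩).trans e)
  set V : Set ℝ := Ioo 0 1 ∩ φ ⁻¹' (ψ '' Ioo 0 1) with hV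
  have hVo : IsOpen V :=
    isOpen_Ioo.inter ((hψ.isOpenMap _ isOpen_Ioo).preimage hφ.continuous)
  have hVr : V ⊆ φ ⁻¹' range ψ := fun s hs => image_subset_range _ _ hs.2
  have hVf : ∀ s ∈ V, f s ∈ Ioo (0 : ℝ) 1 := by
    rintro s ⟨_, t, ht, e⟩
    rw [hfs s t e.symm]
    exact ht
  have hVmem : ∀ s t, s ∈ Ioo (0 : ℝ) 1 → t ∈ Ioo (0 : ℝ) 1 → φ s = ψ t → s ∈ V :=
    fun s t hs ht e => ⟨hs, t, ht, e.symm⟩
  have hs2V : s2 ∈ V := hVmem s2 t2 ⟨hs2, by linarith⟩ ⟨ht2, by linarith⟩ e2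
  have hs1V : s1 ∈ V := hVmem s1 t1 ⟨hs1, hs1'⟩ ⟨ht1, ht1'⟩ e1
  -- the interval of `V` around `s2`
  obtain ⟨α, β, hα, hβ, hαV, hβV, hIoo⟩ : ∃ α β : ℝ, α < s2 ∧ s2 < β ∧ α ∉ V ∧ β ∉ V ∧
      Ioo α β ⊆ V := by
    set A : Set ℝ := {a | a ≤ s2 ∧ a ∉ V} with hA
    set B : Set ℝ := {b | s2 ≤ b ∧ b ∉ V} with hB
    have hAc : IsClosed A := isClosed_Iic.inter hVo.isClosed_compl
    have hBc : IsClosed B := isClosed_Ici.inter hVo.isClosed_compl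
    have hAne : A.Nonempty := ⟨0, hs2.le, fun hv => lt_irrefl _ hv.1.1⟩
    have hBne : B.Nonempty := ⟨1, by linarith, fun hv => lt_irrefl _ hv.1.2⟩
    have hAb : BddAbove A := ⟨s2, fun a ha => ha.1⟩
    have hBb : BddBelow B := ⟨s2, fun a ha => ha.1⟩
    have hAm := hAc.csSup_mem hAne hAb
    have hBm := hBc.csInf_mem hBne hBb
    refine ⟨sSup A, sInf B, lt_of_le_of_ne hAm.1 (fun e => hAm.2 (by rw [e]; exact hs2V)),
      lt_of_le_of_ne hBm.1 (fun e => hBm.2 (by rw [← e]; exact hs2V)), hAm.2, hBm.2, ?_⟩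
    intro z hz
    by_contra hzV
    rcases le_total z s2 with hle | hle
    · exact absurd (le_csSup hAb ⟨hle, hzV⟩) (not_le.2 hz.1)
    · exact absurd (csInf_le hBb ⟨hle, hzV⟩) (not_le.2 hz.2)
  have hα0 : 0 ≤ α := by
    by_contra hneg
    push Not at hneg
    exact lt_irrefl _ (hIoo ⟨hneg, hs2.trans hβ⟩).1.1
  have hβ1 : β ≤ 1 := by
    by_contra hneg
    push Not at hneg
    exact lt_irrefl _ (hIoo ⟨hα.trans (by linarith), hneg⟩).1.2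
  have hne : (Ioo α β).Nonempty := ⟨s2, hα, hβ⟩
  have hbdd : BddBelow (f '' Ioo α β) := by
    refine ⟨0, ?_⟩
    rintro _ ⟨s, hs, rfl⟩
    exact (hVf s (hIoo hs)).1.le
  set L : ℝ := sInf (f '' Ioo α β) with hL
  have hL0 : 0 ≤ L := by
    refine le_csInf (hne.image f) ?_
    rintro _ ⟨s, hs, rfl⟩
    exact (hVf s (hIoo hs)).1.le
  have hL1 : L < 1 :=
    (csInf_le hbdd ⟨s2, ⟨hα, hβ⟩, rfl⟩).trans_lt (hVf s2 hs2V).2
  have key : ∀ γ : ℝ, 0 ≤ γ → γ < 1 → γ ∉ V → ψ L ≠ φ γ := by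
    intro γ hγ0 hγ1 hγV e
    have hγ : γ ≠ 0 := fun e0 => h0 ⟨L, by rw [e, e0]⟩
    have hL' : L ≠ 0 := fun e0 => h0' ⟨γ, by rw [← e, e0]⟩
    exact hγV (hVmem γ L ⟨lt_of_le_of_ne hγ0 hγ.symm, hγ1⟩ ⟨lt_of_le_of_ne hL0 hL'.symm, hL1⟩ e.symm)
  have hmono := ContinuousOn.strictMonoOn_of_injOn_Ioo (hα.trans hβ)
    (hf2.mono (hIoo.trans hVr)) (hf3.mono (hIoo.trans hVr))
  rcases hmono with hm | hm
  · -- increasing: the left end
    have ht := hm.monotoneOn.tendsto_nhdsWithin_Ioo_right hne hbdd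
    refine ⟨φ α, φ, α, ψ L, hφ, rfl, key α hα0 (by linarith) hαV, ?_⟩
    have h2 : Tendsto (fun s => ψ (f s)) (𝓝[>] α) (𝓝 (ψ L)) :=
      (hψ.continuous.tendsto L).comp ht
    refine h2.congr' ?_
    filter_upwards [Ioo_mem_nhdsGT (hα.trans hβ)] with s hs
    exact hf1 s (hVr (hIoo hs))
  · -- decreasing: the right end
    have ht := hm.antitoneOn.tendsto_nhdsWithin_Ioo_left hne hbdd
    have hβ' : β < 1 := by
      refine lt_of_le_of_ne hβ1 (fun e => ?_)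
      have h3 : s1 ∈ Ioo α β := ⟨hα.trans hs21, by rw [e]; exact hs1'⟩
      have h4 := hm ⟨hα, hβ⟩ h3 hs21
      rw [hfs s1 t1 e1, hfs s2 t2 e2] at h4
      exact absurd ht21 (not_lt.2 h4.le)
    refine ⟨φ β, oneSided_of_left hφ (key β (by linarith) hβ' hβV) ?_⟩
    have h2 : Tendsto (fun s => ψ (f s)) (𝓝[<] β) (𝓝 (ψ L)) :=
      (hψ.continuous.tendsto L).comp ht
    refine h2.congr' ?_
    filter_upwards [Ioo_mem_nhdsLT (hα.trans hβ)] with s hs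
    exact hf1 s (hVr (hIoo hs))


/-- a line through a given point -/
lemma exists_line (hm : TopManifold 1 M) (x : M) : ∃ φ : ℝ → M, IsOpenEmbedding φ ∧ φ 0 = x := by
  obtain ⟨U, hU, hxU, ⟨e⟩⟩ := hm.chart x
  let g : U ≃ₜ ℝ := (e.trans (EuclideanSpace.equiv (Fin 1) ℝ).toHomeomorph).trans
    (Homeomorph.funUnique (Fin 1) ℝ)
  let k : ℝ ≃ₜ U := (Homeomorph.addRight (g ⟨x, hxU⟩)).trans g.symm
  refine ⟨fun t => (k t : M), hU.isOpenEmbedding_subtypeVal.comp k.isOpenEmbedding, ?_⟩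
  simp [k]

/-- two distinct points which are not separated are not on a common line -/
lemma notMem_range {p q : M} {ψ : ℝ → M} (hψ : IsOpenEmbedding ψ) (hpq : p ≠ q)
    (hns : NotSeparated p q) (hq : q ∈ range ψ) : p ∉ range ψ := by
  rintro ⟨s, rfl⟩
  obtain ⟨t, rfl⟩ := hq
  obtain ⟨U, V, hU, hV, hsU, htV, hd⟩ := t2_separation (fun e => hpq (congrArg ψ e) : s ≠ t)
  obtain ⟨z, ⟨u, hu, hu'⟩, ⟨v, hv, hv'⟩⟩ := hns (ψ '' U) (ψ '' V) (hψ.isOpenMap _ hU)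
    (hψ.isOpenMap _ hV) ⟨s, hsU, rfl⟩ ⟨t, htV, rfl⟩
  have : u = v := hψ.injective (hu'.trans hv'.symm)
  subst this
  exact Set.disjoint_left.mp hd hu hv

lemma NotSeparated.symm {p q : M} (h : NotSeparated p q) : NotSeparated q p := by
  intro U V hU hV hqU hpV
  obtain ⟨z, hz⟩ := h V U hV hU hpV hqU
  exact ⟨z, hz.2, hz.1⟩

lemma exists_oneSided {p q : M} {φ ψ : ℝ → M} (hφ : IsOpenEmbedding φ) (hψ : IsOpenEmbedding ψ)
    (hp : φ 0 = p) (hq : ψ 0 = q) (hpq : p ≠ q) (hns : NotSeparated p q) :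
    ∃ x : M, OneSided x := by
  have h0 : φ 0 ∉ range ψ := by
    rw [hp]
    exact notMem_range hψ hpq hns ⟨0, hq⟩
  have h0' : ψ 0 ∉ range φ := by
    rw [hq]
    exact notMem_range hφ hpq.symm (NotSeparated.symm hns) ⟨0, hp⟩
  by_contra hno
  have pat : ∀ σ τ : ℝ ≃ₜ ℝ, σ 0 = 0 → τ 0 = 0 →
      ∃ ε > 0, ∀ s t : ℝ, 0 < s → s < ε → 0 < t → t < ε → φ (σ s) ≠ ψ (τ t) := by
    intro σ τ hσ hτ
    by_contra hcon
    push Not at hcon
    refine hno (exists_oneSided_pos (hφ.comp σ.isOpenEmbedding) (hψ.comp τ.isOpenEmbedding)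
      ?_ ?_ hcon)
    · rintro ⟨t, ht⟩
      simp only [Function.comp, hσ] at ht
      exact h0 ⟨τ t, ht⟩
    · rintro ⟨t, ht⟩
      simp only [Function.comp, hτ] at ht
      exact h0' ⟨σ t, ht⟩
  obtain ⟨ε1, h1, H1⟩ := pat (Homeomorph.refl ℝ) (Homeomorph.refl ℝ) rfl rfl
  obtain ⟨ε2, h2, H2⟩ := pat (Homeomorph.refl ℝ) (Homeomorph.neg ℝ) rfl (by simp)
  obtain ⟨ε3, h3, H3⟩ := pat (Homeomorph.neg ℝ) (Homeomorph.refl ℝ) (by simp) rfl
  obtain ⟨ε4, h4, H4⟩ := pat (Homeomorph.neg ℝ) (Homeomorph.neg ℝ) (by simp) (by simp)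
  set ε := min (min ε1 ε2) (min ε3 ε4) with hε
  have hε0 : 0 < ε := lt_min (lt_min h1 h2) (lt_min h3 h4)
  have e1 : ε ≤ ε1 := (min_le_left _ _).trans (min_le_left _ _)
  have e2 : ε ≤ ε2 := (min_le_left _ _).trans (min_le_right _ _)
  have e3 : ε ≤ ε3 := (min_le_right _ _).trans (min_le_left _ _)
  have e4 : ε ≤ ε4 := (min_le_right _ _).trans (min_le_right _ _)
  obtain ⟨z, ⟨s, hs, rfl⟩, ⟨t, ht, hst⟩⟩ := hns (φ '' Ioo (-ε) ε) (ψ '' Ioo (-ε) ε)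
    (hφ.isOpenMap _ isOpen_Ioo) (hψ.isOpenMap _ isOpen_Ioo)
    ⟨0, ⟨by linarith, hε0⟩, hp⟩ ⟨0, ⟨by linarith, hε0⟩, hq⟩
  have hs0 : s ≠ 0 := by
    rintro rfl
    exact h0 ⟨t, hst⟩
  have ht0 : t ≠ 0 := by
    rintro rfl
    exact h0' ⟨s, hst.symm⟩
  rcases lt_or_gt_of_ne hs0 with hs' | hs' <;> rcases lt_or_gt_of_ne ht0 with ht' | ht'
  · refine H4 (-s) (-t) (by linarith) (by linarith [hs.1]) (by linarith) (by linarith [ht.1]) ?_
    simp [hst]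
  · refine H3 (-s) t (by linarith) (by linarith [hs.1]) (by linarith) (by linarith [ht.2]) ?_
    simp [hst]
  · refine H2 s (-t) (by linarith) (by linarith [hs.2]) (by linarith) (by linarith [ht.1]) ?_
    simp [hst]
  · refine H1 s t (by linarith) (by linarith [hs.2]) (by linarith) (by linarith [ht.2]) ?_
    simp [hst]

/-- the partner of a one-sided point lies in some member of the cover, and in a given line the
point is then an end of an interval of this member -/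
lemma endpoint {χ : ℝ → M} (hχ : IsOpenEmbedding χ) {s : ℝ} (hs : OneSided (χ s))
    (𝒰 : Set (Set M)) (h𝒰 : ∀ U ∈ 𝒰, IsOpen U ∧ T2Space U) (hcov : ⋃₀ 𝒰 = Set.univ) :
    ∃ U ∈ 𝒰, s ∈ {s : ℝ | s ∉ χ ⁻¹' U ∧ ∃ b, s < b ∧ Ioo s b ⊆ χ ⁻¹' U} ∪
      {s : ℝ | s ∉ χ ⁻¹' U ∧ ∃ b, b < s ∧ Ioo b s ⊆ χ ⁻¹' U} := by
  obtain ⟨φ, a, y, hφ, hφa, hy, ht⟩ := hs
  have hyc : y ∈ ⋃₀ 𝒰 := by rw [hcov]; trivial
  obtain ⟨U, hU, hyU⟩ := hyc
  obtain ⟨hUo, hUt⟩ := h𝒰 U hU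
  have hta : Tendsto φ (𝓝[>] a) (𝓝 (χ s)) := by
    rw [← hφa]
    exact hφ.continuous.continuousWithinAt
  have hsU : χ s ∉ U := by
    intro hsU
    obtain ⟨V, W, hV, hW, hxV, hyW, hd⟩ :=
      t2_separation (x := (⟨χ s, hsU⟩ : U)) (y := ⟨y, hyU⟩)
        (fun h => hy (congrArg Subtype.val h).symm)
    have hV' := (hUo.isOpenMap_subtype_val _ hV).mem_nhds ⟨_, hxV, rfl⟩
    have hW' := (hUo.isOpenMap_subtype_val _ hW).mem_nhds ⟨_, hyW, rfl⟩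
    obtain ⟨r, ⟨v, hv, hv'⟩, ⟨w, hw, hw'⟩⟩ := ((hta.eventually hV').and (ht.eventually hW')).exists
    have : v = w := Subtype.ext (hv'.trans hw'.symm)
    subst this
    exact Set.disjoint_left.mp hd hv hw
  obtain ⟨f, hf1, hf2, hf3⟩ := exists_transition hφ hχ
  have hfa : f a = s := hχ.injective ((hf1 a ⟨s, hφa.symm⟩).trans hφa)
  have hev : ∀ᶠ r in 𝓝[>] a, φ r ∈ U ∧ φ r ∈ range χ :=
    (ht.eventually (hUo.mem_nhds hyU)).and
      (hta.eventually (hχ.isOpen_range.mem_nhds ⟨s, rfl⟩))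
  obtain ⟨u, hu, hIoo⟩ := mem_nhdsGT_iff_exists_Ioo_subset.1 hev
  have hu' : a < u := hu
  set b : ℝ := (a + u) / 2 with hb
  have hab : a < b := by rw [hb]; linarith
  have hbu : b < u := by rw [hb]; linarith
  have hIcc : Icc a b ⊆ φ ⁻¹' range χ := by
    intro r hr
    rcases eq_or_lt_of_le hr.1 with e | e
    · exact ⟨s, by rw [← e, hφa]⟩
    · exact (hIoo ⟨e, hr.2.trans_lt hbu⟩).2
  have hcont : ContinuousOn f (Icc a b) := hf2.mono hIcc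
  have hne : f b ≠ s := by
    intro e
    rw [← hfa] at e
    exact hab.ne' (hf3 (hIcc ⟨hab.le, le_rfl⟩) (hIcc ⟨le_rfl, hab.le⟩) e)
  have himg : ∀ z ∈ f '' Ioo a b, χ z ∈ U := by
    rintro _ ⟨r, hr, rfl⟩
    rw [hf1 r (hIcc ⟨hr.1.le, hr.2.le⟩)]
    exact (hIoo ⟨hr.1, hr.2.trans hbu⟩).1
  refine ⟨U, hU, ?_⟩
  rcases lt_or_gt_of_ne hne with hlt | hlt
  · right
    refine ⟨hsU, f b, hlt, fun z hz => himg z ?_⟩
    refine intermediate_value_Ioo' hab.le hcont ?_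
    rw [hfa]
    exact hz
  · left
    refine ⟨hsU, f b, hlt, fun z hz => himg z ?_⟩
    refine intermediate_value_Ioo hab.le hcont ?_
    rw [hfa]
    exact hz

/-- if every point is one-sided then every cover by open Hausdorff sets is large -/
lemma continuum_le (hm : TopManifold 1 M) (hall : ∀ x : M, OneSided x)
    (𝒰 : Set (Set M)) (h𝒰 : ∀ U ∈ 𝒰, IsOpen U ∧ T2Space U) (hcov : ⋃₀ 𝒰 = Set.univ) :
    𝔠 ≤ #𝒰 := by
  have := hm.connected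
  obtain ⟨x⟩ : Nonempty M := inferInstance
  obtain ⟨χ, hχ, -⟩ := exists_line hm x
  let E : 𝒰 → Set ℝ := fun U => {s : ℝ | s ∉ χ ⁻¹' (U : Set M) ∧ ∃ b, s < b ∧
    Ioo s b ⊆ χ ⁻¹' (U : Set M)} ∪
      {s : ℝ | s ∉ χ ⁻¹' (U : Set M) ∧ ∃ b, b < s ∧ Ioo b s ⊆ χ ⁻¹' (U : Set M)}
  have hE : ∀ U, #(E U) ≤ ℵ₀ := fun U =>
    ((countable_right _).union (countable_left _)).le_aleph0
  have hun : (⋃ U, E U) = Set.univ := by
    refine eq_univ_of_forall (fun s => ?_)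
    obtain ⟨U, hU, hs⟩ := endpoint hχ (hall (χ s)) 𝒰 h𝒰 hcov
    exact mem_iUnion.2 ⟨⟨U, hU⟩, hs⟩
  have h1 : 𝔠 ≤ #𝒰 * ℵ₀ := by
    have h2 : #(⋃ U, E U) ≤ #𝒰 * ⨆ U, #(E U) := mk_iUnion_le _
    rw [hun, mk_univ, mk_real] at h2
    refine h2.trans (mul_le_mul' le_rfl (ciSup_le' hE))
  by_contra h3
  push Not at h3
  exact absurd h1 (not_le.mpr (mul_lt_of_lt aleph0_le_continuum h3 aleph0_lt_continuum))

lemma openHausNumber_le_euclNumber {n : ℕ} (hm : TopManifold n M) :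
    openHausNumber M ≤ euclNumber n M := by
  have hne : {κ | ∃ 𝒰 : Set (Set M), #𝒰 = κ ∧
      (∀ U ∈ 𝒰, IsOpen U ∧ Nonempty (U ≃ₜ EuclideanSpace ℝ (Fin n))) ∧
        ⋃₀ 𝒰 = Set.univ}.Nonempty := by
    refine ⟨_, {U : Set M | IsOpen U ∧ Nonempty (U ≃ₜ EuclideanSpace ℝ (Fin n))}, rfl,
      fun U hU => hU, ?_⟩
    refine eq_univ_of_forall (fun x => ?_)
    obtain ⟨U, hU, hxU, he⟩ := hm.chart x
    exact ⟨U, ⟨hU, he⟩, hxU⟩
  obtain ⟨𝒰, hcard, h𝒰, hcov⟩ := csInf_mem hne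
  have hcard' : #𝒰 = euclNumber n M := hcard
  rw [← hcard']
  refine csInf_le' ⟨𝒰, rfl, fun U hU => ⟨(h𝒰 U hU).1, ?_⟩, hcov⟩
  obtain ⟨e⟩ := (h𝒰 U hU).2
  exact e.symm.t2Space

theorem main (hm : TopManifold 1 M) (hNH : ¬ T2Space M)
    (hhom : ∀ x y : M, ∃ h : M ≃ₜ M, h x = y) :
    𝔠 ≤ openHausNumber M ∧ euclNumber 1 M = openHausNumber M := by
  have hns : ∃ p q : M, p ≠ q ∧ NotSeparated p q := by
    by_contra hcon
    push Not at hcon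
    refine hNH ⟨fun p q hpq => ?_⟩
    have h1 := hcon p q hpq
    simp only [NotSeparated] at h1
    push Not at h1
    obtain ⟨U, V, hU, hV, hpU, hqV, hUV⟩ := h1
    exact ⟨U, V, hU, hV, hpU, hqV, Set.disjoint_iff_inter_eq_empty.2 hUV⟩
  obtain ⟨p, q, hpq, hns⟩ := hns
  obtain ⟨φ, hφ, hp⟩ := exists_line hm p
  obtain ⟨ψ, hψ, hq⟩ := exists_line hm q
  obtain ⟨x, hx⟩ := exists_oneSided hφ hψ hp hq hpq hns
  have hall : ∀ y : M, OneSided y := by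
    intro y
    obtain ⟨h, rfl⟩ := hhom x y
    exact hx.map h
  obtain ⟨𝒰, hcard, h𝒰, hcov⟩ := Size.exists_haus_cover hm
  have h2 : 𝔠 ≤ #𝒰 := continuum_le hm hall 𝒰 h𝒰 hcov
  refine ⟨by rw [← hcard]; exact h2, le_antisymm ?_ (openHausNumber_le_euclNumber hm)⟩
  have h3 : #M ≤ max ℵ₀ (#𝒰 * 𝔠) := Size.mk_le hm 𝒰 h𝒰 hcov
  have h4 : #𝒰 * 𝔠 ≤ #𝒰 :=
    (mul_le_mul' le_rfl h2).trans (mul_eq_self (aleph0_le_continuum.trans h2)).le
  have h5 : #M ≤ #𝒰 := h3.trans (max_le (aleph0_le_continuum.trans h2) h4)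
  rw [← hcard]
  exact (Size.euclNumber_le hm).trans h5

end Pool.Agent.Lib.MP_434b1a_gt.DimOne
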