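import Pool.Agent.Lib.MP_434b1a_gt.Defs

/-!
Connected Hausdorff manifolds have at most continuum many points, and a manifold covered by `κ`
open Hausdorff subspaces has at most `κ * 𝔠` points.
-/

namespace Pool.Agent.Lib.MP_434b1a_gt.Size

open Cardinal Topology Set

lemma exists_surj {X : Type} (V : Set X) (hV : V.Nonempty) (hc : #V ≤ 𝔠) :
    ∃ g : ℝ → X, V ⊆ Set.range g := by
  rw [← mk_real, Cardinal.le_def] at hc
  obtain ⟨f⟩ := hc
  have : Nonempty V := hV.to_subtype
  refine ⟨fun t => (Function.invFun f t : V), fun x hx => ⟨f ⟨x, hx⟩, ?_⟩⟩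
  have h1 := Function.leftInverse_invFun f.injective ⟨x, hx⟩
  exact congrArg Subtype.val h1

/-- arities -/
def ar : Option (Option ℝ) → Type
  | none => Empty
  | some none => ℕ
  | some (some _) => Unit

lemma mk_tree_le : #(WType ar) ≤ 𝔠 := by
  apply WType.cardinalMk_le_of_le'
  have h1 : ∀ a : Option (Option ℝ), 𝔠 ^ lift.{0, 0} #(ar a) ≤ 𝔠 := by
    intro a
    rw [lift_id]
    match a with
    | none =>
      have : #(ar none) = 0 := by
        change #Empty = 0
        exact mk_eq_zero _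
      rw [this, power_zero]
      exact one_le_aleph0.trans aleph0_le_continuum
    | some none =>
      have : #(ar (some none)) = ℵ₀ := mk_nat
      rw [this, continuum_power_aleph0]
    | some (some t) =>
      have : #(ar (some (some t))) = 1 := by
        change #Unit = 1
        exact mk_eq_one _
      rw [this, power_one]
  refine (sum_le_sum _ (fun _ => 𝔠) h1).trans ?_
  rw [sum_const, lift_id, lift_id]
  have h2 : #(Option (Option ℝ)) ≤ 𝔠 := by
    rw [mk_option, mk_option, mk_real, add_assoc]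
    exact add_le_of_le aleph0_le_continuum le_rfl
      (add_le_of_le aleph0_le_continuum (one_le_aleph0.trans aleph0_le_continuum)
        (one_le_aleph0.trans aleph0_le_continuum))
  exact (mul_le_mul' h2 le_rfl).trans (by simp)

open Classical in
/-- a limit of the sequence `s` if there is one -/
noncomputable def seqLim {X : Type} [TopologicalSpace X] (x0 : X) (s : ℕ → X) : X :=
  if hx : ∃ x, Filter.Tendsto s Filter.atTop (𝓝 x) then hx.choose else x0

lemma seqLim_eq {X : Type} [TopologicalSpace X] [T2Space X] (x0 : X) (s : ℕ → X) (x : X)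
    (h : Filter.Tendsto s Filter.atTop (𝓝 x)) : seqLim x0 s = x := by
  have hex : ∃ x, Filter.Tendsto s Filter.atTop (𝓝 x) := ⟨x, h⟩
  rw [seqLim, dif_pos hex]
  exact tendsto_nhds_unique hex.choose_spec h

/-- A connected first countable Hausdorff space in which every point has an open neighbourhood
with at most continuum many points has at most continuum many points. -/
lemma mk_le_continuum {X : Type} [TopologicalSpace X] [T2Space X] [FirstCountableTopology X]
    [ConnectedSpace X] (h : ∀ x : X, ∃ V : Set X, IsOpen V ∧ x ∈ V ∧ #V ≤ 𝔠) : #X ≤ 𝔠 := by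
  obtain ⟨x0⟩ : Nonempty X := inferInstance
  choose V hVo hxV hVc using h
  choose g hg using fun x => exists_surj (V x) ⟨x, hxV x⟩ (hVc x)
  let step : (Σ a : Option (Option ℝ), ar a → X) → X
    | ⟨none, _⟩ => x0
    | ⟨some none, s⟩ => seqLim x0 (fun k : ℕ => s k)
    | ⟨some (some t), s⟩ => g (s ()) t
  let val : WType ar → X := WType.elim X step
  have hval : ∀ (a : Option (Option ℝ)) (f : ar a → WType ar),
      val (WType.mk a f) = step ⟨a, fun b => val (f b)⟩ := fun a f => rfl
  let A : Set X := Set.range val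
  have hAo : IsOpen A := by
    rw [isOpen_iff_forall_mem_open]
    rintro _ ⟨w, rfl⟩
    refine ⟨V (val w), ?_, hVo _, hxV _⟩
    intro y hy
    obtain ⟨t, rfl⟩ := hg (val w) hy
    exact ⟨WType.mk (some (some t)) (fun _ => w), hval _ _⟩
  have hAc : IsClosed A := by
    rw [← closure_subset_iff_isClosed]
    intro x hx
    rw [mem_closure_iff_seq_limit] at hx
    obtain ⟨s, hs, hsx⟩ := hx
    choose w hw using hs
    refine ⟨WType.mk (some none) (fun k : ℕ => w k), ?_⟩
    have h2 : val (WType.mk (some none) (fun k : ℕ => w k)) =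
        seqLim x0 (fun k : ℕ => val (w k)) := rfl
    refine h2.trans (seqLim_eq x0 _ x ?_)
    have hs' : (fun k : ℕ => val (w k)) = s := funext hw
    rw [hs']
    exact hsx
  have hA : A = Set.univ := by
    have h1 : IsClopen A := ⟨hAc, hAo⟩
    rcases isClopen_iff.mp h1 with h2 | h2
    · exfalso
      have : val (WType.mk none Empty.elim) ∈ A := ⟨_, rfl⟩
      rw [h2] at this
      exact this
    · exact h2
  calc #X = #(Set.univ : Set X) := mk_univ.symm
    _ = #A := by rw [hA]
    _ ≤ #(WType ar) := mk_range_le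
    _ ≤ 𝔠 := mk_tree_le

/-! ### Manifolds -/

variable {M : Type} [TopologicalSpace M] {n : ℕ}

lemma mk_euclidean_le (n : ℕ) : #(EuclideanSpace ℝ (Fin n)) ≤ 𝔠 := by
  have h1 : #(EuclideanSpace ℝ (Fin n)) = #(Fin n → ℝ) :=
    mk_congr (EuclideanSpace.equiv (Fin n) ℝ).toEquiv
  rw [h1]
  simp only [mk_pi, prod_const, mk_real, lift_continuum, mk_fin, lift_natCast]
  exact power_nat_le aleph0_le_continuum

lemma small_nhd (hm : TopManifold n M) (x : M) : ∃ V : Set M, IsOpen V ∧ x ∈ V ∧ #V ≤ 𝔠 := by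
  obtain ⟨U, hU, hx, ⟨e⟩⟩ := hm.chart x
  exact ⟨U, hU, hx, (mk_congr e.toEquiv).trans_le (mk_euclidean_le n)⟩

lemma firstCountable (hm : TopManifold n M) : FirstCountableTopology M := by
  refine ⟨fun x => ?_⟩
  obtain ⟨U, hU, hx, ⟨e⟩⟩ := hm.chart x
  have : SecondCountableTopology U := e.secondCountableTopology
  have h1 : 𝓝 x = Filter.map Subtype.val (𝓝 (⟨x, hx⟩ : U)) :=
    (hU.isOpenEmbedding_subtypeVal.map_nhds_eq ⟨x, hx⟩).symm
  rw [h1]
  infer_instance

lemma locallyConnected (hm : TopManifold n M) : LocallyConnectedSpace M := by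
  rw [locallyConnectedSpace_iff_subsets_isOpen_isConnected]
  intro x W hW
  obtain ⟨U, hU, hx, ⟨e⟩⟩ := hm.chart x
  have : LocallyConnectedSpace U := e.isOpenEmbedding.locallyConnectedSpace
  have hW' : Subtype.val ⁻¹' W ∈ 𝓝 (⟨x, hx⟩ : U) := continuous_subtype_val.continuousAt hW
  obtain ⟨V, hVW, hVo, hxV, hVc⟩ :=
    (locallyConnectedSpace_iff_subsets_isOpen_isConnected (α := U)).mp this _ _ hW'
  refine ⟨Subtype.val '' V, ?_, hU.isOpenMap_subtype_val _ hVo, ⟨_, hxV, rfl⟩,
    hVc.image _ continuous_subtype_val.continuousOn⟩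
  rintro _ ⟨v, hv, rfl⟩
  exact hVW hv

lemma mk_component_le (hm : TopManifold n M) (U : Set M) (hT : T2Space U)
    (x : M) (hx : x ∈ U) : #(connectedComponentIn U x) ≤ 𝔠 := by
  have := locallyConnected hm
  have := firstCountable hm
  have hsub := connectedComponentIn_subset U x
  have : T2Space (connectedComponentIn U x) :=
    (Topology.IsEmbedding.inclusion hsub).t2Space
  have hconn : IsConnected (connectedComponentIn U x) := isConnected_connectedComponentIn_iff.mpr hx
  have : ConnectedSpace (connectedComponentIn U x) := isConnected_iff_connectedSpace.mp hconn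
  apply mk_le_continuum
  intro y
  obtain ⟨V, hV, hyV, hVc⟩ := small_nhd hm y
  refine ⟨Subtype.val ⁻¹' V, hV.preimage continuous_subtype_val, hyV, le_trans ?_ hVc⟩
  exact mk_preimage_of_injective _ _ Subtype.val_injective

lemma mk_le (hm : TopManifold n M) (𝒰 : Set (Set M)) (h𝒰 : ∀ U ∈ 𝒰, IsOpen U ∧ T2Space U)
    (hcov : ⋃₀ 𝒰 = Set.univ) : #M ≤ max ℵ₀ (#𝒰 * 𝔠) := by
  have := locallyConnected hm
  have := hm.connected
  obtain ⟨x0⟩ : Nonempty M := inferInstance
  have hg : ∀ (U : 𝒰) (x : M), ∃ g : ℝ → M, x ∈ (U : Set M) →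
      connectedComponentIn (U : Set M) x ⊆ Set.range g := by
    intro U x
    by_cases hx : x ∈ (U : Set M)
    · obtain ⟨g, hg⟩ := exists_surj (connectedComponentIn (U : Set M) x)
        ⟨x, mem_connectedComponentIn hx⟩
        (mk_component_le hm U (h𝒰 U U.2).2 x hx)
      exact ⟨g, fun _ => hg⟩
    · exact ⟨fun _ => x0, fun h => absurd h hx⟩
  choose g hg using hg
  let val : List (𝒰 × ℝ) → M := fun l => l.foldr (fun p y => g p.1 y p.2) x0
  have hval : ∀ (U : 𝒰) (t : ℝ) (l : List (𝒰 × ℝ)), val ((U, t) :: l) = g U (val l) t :=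
    fun _ _ _ => rfl
  have hmem : ∀ (U : 𝒰) (l : List (𝒰 × ℝ)), val l ∈ (U : Set M) →
      connectedComponentIn (U : Set M) (val l) ⊆ Set.range val := by
    intro U l hl y hy
    obtain ⟨t, rfl⟩ := hg U (val l) hl hy
    exact ⟨(U, t) :: l, hval U t l⟩
  have hexU : ∀ y : M, ∃ U : 𝒰, y ∈ (U : Set M) := by
    intro y
    have : y ∈ ⋃₀ 𝒰 := by rw [hcov]; trivial
    obtain ⟨U, hU, hyU⟩ := this
    exact ⟨⟨U, hU⟩, hyU⟩
  have hBo : IsOpen (Set.range val) := by
    rw [isOpen_iff_forall_mem_open]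
    rintro _ ⟨l, rfl⟩
    obtain ⟨U, hU⟩ := hexU (val l)
    exact ⟨_, hmem U l hU, (h𝒰 U U.2).1.connectedComponentIn, mem_connectedComponentIn hU⟩
  have hBc : IsClosed (Set.range val) := by
    rw [← isOpen_compl_iff, isOpen_iff_forall_mem_open]
    intro z hz
    obtain ⟨U, hU⟩ := hexU z
    refine ⟨connectedComponentIn (U : Set M) z, ?_, (h𝒰 U U.2).1.connectedComponentIn,
      mem_connectedComponentIn hU⟩
    rintro w hw ⟨l, rfl⟩
    apply hz
    have h1 := connectedComponentIn_eq hw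
    apply hmem U l (connectedComponentIn_subset _ _ hw)
    rw [← h1]
    exact mem_connectedComponentIn hU
  have hB : Set.range val = Set.univ := by
    rcases isClopen_iff.mp ⟨hBc, hBo⟩ with h2 | h2
    · exfalso
      have : val [] ∈ Set.range val := ⟨_, rfl⟩
      rw [h2] at this
      exact this
    · exact h2
  calc #M = #(Set.univ : Set M) := mk_univ.symm
    _ = #(Set.range val) := by rw [hB]
    _ ≤ #(List (𝒰 × ℝ)) := mk_range_le
    _ ≤ max ℵ₀ #(𝒰 × ℝ) := mk_list_le_max _
    _ = max ℵ₀ (#𝒰 * 𝔠) := by rw [mk_prod, lift_id, lift_id, mk_real]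

lemma euclNumber_le (hm : TopManifold n M) : euclNumber n M ≤ #M := by
  choose U hU hx he using hm.chart
  refine (csInf_le' ?_).trans (mk_range_le (f := U))
  refine ⟨Set.range U, rfl, ?_, ?_⟩
  · rintro _ ⟨x, rfl⟩
    exact ⟨hU x, he x⟩
  · ext x
    simp only [mem_univ, iff_true]
    exact ⟨_, ⟨x, rfl⟩, hx x⟩

lemma exists_haus_cover (hm : TopManifold n M) : ∃ 𝒰 : Set (Set M), #𝒰 = openHausNumber M ∧
    (∀ U ∈ 𝒰, IsOpen U ∧ T2Space U) ∧ ⋃₀ 𝒰 = Set.univ := by
  have hne : {κ | ∃ 𝒰 : Set (Set M), #𝒰 = κ ∧ (∀ U ∈ 𝒰, IsOpen U ∧ T2Space U) ∧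
      ⋃₀ 𝒰 = Set.univ}.Nonempty := by
    choose U hU hx he using hm.chart
    refine ⟨_, Set.range U, rfl, ?_, ?_⟩
    · rintro _ ⟨x, rfl⟩
      obtain ⟨e⟩ := he x
      exact ⟨hU x, e.symm.t2Space⟩
    · ext x
      simp only [mem_univ, iff_true]
      exact ⟨_, ⟨x, rfl⟩, hx x⟩
  exact csInf_mem hne

end Pool.Agent.Lib.MP_434b1a_gt.Size
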