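import Pool.Agent.Lib.MP_434b1a_gt.Construct
import Pool.Agent.Lib.MP_434b1a_gt.Size

/-!
Connected Hausdorff manifolds are homogeneous; products of manifolds.
-/

namespace Pool.Agent.Lib.MP_434b1a_gt.Homog

open Cardinal Topology Filter Set

/-- a homeomorphism of a normed space which moves `c` a little and is the identity away from `c` -/
lemma exists_push {E : Type} [NormedAddCommGroup E] [NormedSpace ℝ E] [CompleteSpace E]
    (c v : E) (hv : ‖v‖ < 1) :
    ∃ T : E ≃ₜ E, T c = c + v ∧ ∀ w, 1 ≤ ‖w - c‖ → T w = w := by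
  let f : E → E := fun w => w + (max (1 - ‖w - c‖) 0) • v
  have hf : ApproximatesLinearOn f ((ContinuousLinearEquiv.refl ℝ E : E ≃L[ℝ] E) : E →L[ℝ] E)
      univ ‖v‖₊ := by
    intro x _ y _
    have h1 : f x - f y - ((ContinuousLinearEquiv.refl ℝ E : E ≃L[ℝ] E) : E →L[ℝ] E) (x - y) =
        (max (1 - ‖x - c‖) 0 - max (1 - ‖y - c‖) 0) • v := by
      simp only [f, ContinuousLinearEquiv.coe_refl, ContinuousLinearMap.coe_id', id]
      rw [sub_smul]
      abel
    rw [h1, norm_smul, Real.norm_eq_abs, mul_comm]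
    have h2 := abs_max_sub_max_le_abs (1 - ‖x - c‖) (1 - ‖y - c‖) 0
    have h3 : |(1 - ‖x - c‖) - (1 - ‖y - c‖)| ≤ ‖x - y‖ := by
      have h4 := abs_norm_sub_norm_le (y - c) (x - c)
      have h5 : (1 - ‖x - c‖) - (1 - ‖y - c‖) = ‖y - c‖ - ‖x - c‖ := by ring
      have h6 : y - c - (x - c) = -(x - y) := by abel
      rw [h6, norm_neg] at h4
      rw [h5]
      exact h4
    exact mul_le_mul_of_nonneg_left (h2.trans h3) (norm_nonneg v)
  have hc : Subsingleton E ∨ ‖v‖₊ <
      ‖(((ContinuousLinearEquiv.refl ℝ E : E ≃L[ℝ] E).symm : E ≃L[ℝ] E) : E →L[ℝ] E)‖₊⁻¹ := by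
    rcases subsingleton_or_nontrivial E with h | h
    · exact Or.inl h
    · right
      have h1 : ‖(((ContinuousLinearEquiv.refl ℝ E : E ≃L[ℝ] E).symm : E ≃L[ℝ] E) :
          E →L[ℝ] E)‖₊ = 1 := by
        have : (((ContinuousLinearEquiv.refl ℝ E : E ≃L[ℝ] E).symm : E ≃L[ℝ] E) :
          E →L[ℝ] E) = ContinuousLinearMap.id ℝ E := rfl
        rw [this]
        exact ContinuousLinearMap.nnnorm_id
      rw [h1, inv_one]
      exact hv
  refine ⟨hf.toHomeomorph f hc, ?_, ?_⟩
  · show c + (max (1 - ‖c - c‖) 0) • v = c + v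
    simp
  · intro w hw
    show w + (max (1 - ‖w - c‖) 0) • v = w
    rw [max_eq_right (by linarith)]
    simp

/-- extension of such a homeomorphism by the identity -/
lemma continuous_extend {X E : Type} [TopologicalSpace X] [T2Space X] [NormedAddCommGroup E]
    [ProperSpace E] {φ : E → X} (hφ : IsOpenEmbedding φ) (T : E ≃ₜ E) (c : E)
    (hT : ∀ w, 1 ≤ ‖w - c‖ → T w = w) :
    Continuous (Function.extend φ (fun w => φ (T w)) id) := by
  rw [continuous_iff_continuousAt]
  intro p
  by_cases hp : p ∈ range φ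
  · obtain ⟨w, rfl⟩ := hp
    rw [← hφ.continuousAt_iff]
    have h1 : Function.extend φ (fun w => φ (T w)) id ∘ φ = fun w => φ (T w) := by
      funext u
      exact hφ.injective.extend_apply _ _ _
    rw [h1]
    exact (hφ.continuous.comp T.continuous).continuousAt
  · have hK : IsClosed (φ '' Metric.closedBall c 1) :=
      ((isCompact_closedBall c 1).image hφ.continuous).isClosed
    have hpK : p ∉ φ '' Metric.closedBall c 1 := fun h => hp (image_subset_range _ _ h)
    have hev : ∀ᶠ q in 𝓝 p, Function.extend φ (fun w => φ (T w)) id q = id q := by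
      filter_upwards [hK.isOpen_compl.mem_nhds hpK] with q hq
      by_cases hq' : ∃ w, φ w = q
      · obtain ⟨w, rfl⟩ := hq'
        rw [hφ.injective.extend_apply, id]
        have h2 : w ∉ Metric.closedBall c 1 := fun h => hq ⟨w, h, rfl⟩
        rw [Metric.mem_closedBall, dist_eq_norm, not_le] at h2
        rw [hT w h2.le]
      · exact Function.extend_apply' _ _ _ hq'
    exact continuousAt_id.congr (hev.mono fun q hq => hq.symm)

lemma extend_extend {X E : Type} {φ : E → X} (hφ : Function.Injective φ) (S T : E → E)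
    (h : ∀ w, S (T w) = w) (p : X) :
    Function.extend φ (fun w => φ (S w)) id (Function.extend φ (fun w => φ (T w)) id p) = p := by
  by_cases hp : ∃ w, φ w = p
  · obtain ⟨w, rfl⟩ := hp
    rw [hφ.extend_apply, hφ.extend_apply, h]
  · rw [Function.extend_apply' (fun w => φ (T w)) id p hp, id, Function.extend_apply' _ _ _ hp, id]

lemma exists_extend {X E : Type} [TopologicalSpace X] [T2Space X] [NormedAddCommGroup E]
    [ProperSpace E] {φ : E → X} (hφ : IsOpenEmbedding φ) (T : E ≃ₜ E) (c : E)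
    (hT : ∀ w, 1 ≤ ‖w - c‖ → T w = w) : ∃ h : X ≃ₜ X, ∀ w, h (φ w) = φ (T w) := by
  have hT' : ∀ w, 1 ≤ ‖w - c‖ → T.symm w = w := fun w hw => by
    conv_lhs => rw [← hT w hw]
    exact T.symm_apply_apply w
  refine ⟨{ toFun := Function.extend φ (fun w => φ (T w)) id
            invFun := Function.extend φ (fun w => φ (T.symm w)) id
            left_inv := extend_extend hφ.injective _ _ T.symm_apply_apply
            right_inv := extend_extend hφ.injective _ _ T.apply_symm_apply
            continuous_toFun := continuous_extend hφ T c hT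
            continuous_invFun := continuous_extend hφ T.symm c hT' }, fun w => ?_⟩
  show Function.extend φ (fun w => φ (T w)) id (φ w) = φ (T w)
  exact hφ.injective.extend_apply _ _ _

lemma exists_chart {X : Type} [TopologicalSpace X] {n : ℕ} (hm : TopManifold n X) (x : X) :
    ∃ φ : EuclideanSpace ℝ (Fin n) → X, IsOpenEmbedding φ ∧ ∃ c, φ c = x := by
  obtain ⟨U, hU, hxU, ⟨e⟩⟩ := hm.chart x
  exact ⟨fun t => (e.symm t : X), hU.isOpenEmbedding_subtypeVal.comp e.symm.isOpenEmbedding,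
    e ⟨x, hxU⟩, by simp⟩

/-- a connected Hausdorff manifold is homogeneous -/
theorem homogeneous {X : Type} [TopologicalSpace X] [T2Space X] {n : ℕ} (hm : TopManifold n X)
    (x y : X) : ∃ h : X ≃ₜ X, h x = y := by
  have := hm.connected
  have hloc : ∀ z : X, {y | ∃ h : X ≃ₜ X, h z = y} ∈ 𝓝 z := by
    intro z
    obtain ⟨φ, hφ, c, rfl⟩ := exists_chart hm z
    refine mem_of_superset (hφ.isOpenMap.image_mem_nhds (Metric.ball_mem_nhds c one_pos)) ?_
    rintro _ ⟨w, hw, rfl⟩
    have hv : ‖w - c‖ < 1 := by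
      rw [Metric.mem_ball, dist_eq_norm] at hw
      exact hw
    obtain ⟨T, hTc, hT⟩ := exists_push c (w - c) hv
    obtain ⟨h, hh⟩ := exists_extend hφ T c hT
    refine ⟨h, ?_⟩
    rw [hh, hTc]
    congr 1
    abel
  have hopen : ∀ z : X, IsOpen {y | ∃ h : X ≃ₜ X, h z = y} := by
    intro z
    rw [isOpen_iff_mem_nhds]
    rintro _ ⟨h, rfl⟩
    refine mem_of_superset (hloc (h z)) ?_
    rintro _ ⟨k, rfl⟩
    exact ⟨h.trans k, rfl⟩
  have hclopen : IsClopen {y | ∃ h : X ≃ₜ X, h x = y} := by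
    refine ⟨⟨?_⟩, hopen x⟩
    rw [isOpen_iff_mem_nhds]
    intro z hz
    refine mem_of_superset ((hopen z).mem_nhds ⟨Homeomorph.refl X, rfl⟩) ?_
    rintro _ ⟨k, rfl⟩ ⟨h, hh⟩
    exact hz ⟨h.trans k.symm, by simp [hh]⟩
  have huniv := hclopen.eq_univ ⟨x, Homeomorph.refl X, rfl⟩
  have : y ∈ {y | ∃ h : X ≃ₜ X, h x = y} := by rw [huniv]; trivial
  exact this

/-- product of manifolds -/
lemma topManifold_prod {X Y : Type} [TopologicalSpace X] [TopologicalSpace Y] {n m : ℕ}
    (hX : TopManifold n X) (hY : TopManifold m Y) : TopManifold (n + m) (X × Y) := by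
  have := hX.connected
  have := hY.connected
  refine ⟨inferInstance, ?_⟩
  rintro ⟨x, y⟩
  obtain ⟨U, hU, hxU, ⟨e⟩⟩ := hX.chart x
  obtain ⟨V, hV, hyV, ⟨f⟩⟩ := hY.chart y
  refine ⟨U ×ˢ V, hU.prod hV, ⟨hxU, hyV⟩, ⟨?_⟩⟩
  have hfr : Module.finrank ℝ (EuclideanSpace ℝ (Fin n) × EuclideanSpace ℝ (Fin m)) =
      Module.finrank ℝ (EuclideanSpace ℝ (Fin (n + m))) := by
    simp
  exact ((Homeomorph.Set.prod U V).trans (e.prodCongr f)).trans
    (ContinuousLinearEquiv.ofFinrankEq hfr).toHomeomorph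

lemma openHausNumber_prod_le {X Y : Type} [TopologicalSpace X] [TopologicalSpace Y] [T2Space Y]
    {n : ℕ} (hX : TopManifold n X) : openHausNumber (X × Y) ≤ openHausNumber X := by
  obtain ⟨𝒰, hcard, h𝒰, hcov⟩ := Size.exists_haus_cover hX
  rw [← hcard]
  refine (csInf_le' ?_).trans (mk_image_le (f := fun U : Set X => (U ×ˢ Set.univ : Set (X × Y)))
    (s := 𝒰))
  refine ⟨_, rfl, ?_, ?_⟩
  · rintro _ ⟨U, hU, rfl⟩
    obtain ⟨h1, h2⟩ := h𝒰 U hU
    exact ⟨h1.prod isOpen_univ, (Homeomorph.Set.prod U (univ : Set Y)).symm.t2Space⟩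
  · refine eq_univ_of_forall ?_
    rintro ⟨x, y⟩
    have hx : x ∈ ⋃₀ 𝒰 := by rw [hcov]; trivial
    obtain ⟨U, hU, hxU⟩ := hx
    exact ⟨_, ⟨U, hU, rfl⟩, hxU, trivial⟩

/-- continuum many disjoint nonempty open sets force a large Euclidean cover number -/
lemma continuum_le_euclNumber {X : Type} [TopologicalSpace X] {n : ℕ} (hX : TopManifold n X)
    (Q : ℝ → Set X) (hQ : ∀ a, IsOpen (Q a)) (hne : ∀ a, (Q a).Nonempty)
    (hd : Pairwise (Function.onFun Disjoint Q)) : 𝔠 ≤ euclNumber n X := by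
  apply le_csInf
  · refine ⟨_, {U : Set X | IsOpen U ∧ Nonempty (U ≃ₜ EuclideanSpace ℝ (Fin n))}, rfl,
      fun U hU => hU, ?_⟩
    refine eq_univ_of_forall (fun x => ?_)
    obtain ⟨U, hU, hxU, he⟩ := hX.chart x
    exact ⟨U, ⟨hU, he⟩, hxU⟩
  · rintro κ ⟨𝒰, rfl, hU, hcovU⟩
    by_contra hlt
    push Not at hlt
    have h1 : (⋃ U : 𝒰, {a : ℝ | (Q a ∩ U).Nonempty}) = Set.univ := by
      ext a
      simp only [mem_univ, iff_true, mem_iUnion]
      obtain ⟨x, hx⟩ := hne a
      have hm : x ∈ ⋃₀ 𝒰 := by rw [hcovU]; trivial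
      obtain ⟨U, hU', hmU⟩ := hm
      exact ⟨⟨U, hU'⟩, x, hx, hmU⟩
    have h2 : #(⋃ U : 𝒰, {a : ℝ | (Q a ∩ U).Nonempty}) ≤ #𝒰 * ℵ₀ := by
      refine (mk_iUnion_le _).trans (mul_le_mul_right (ciSup_le' fun U => ?_) _)
      obtain ⟨h⟩ := (hU U.1 U.2).2
      have : SecondCountableTopology U.1 := h.secondCountableTopology
      have hc : {a | (Q a ∩ U.1).Nonempty}.Countable := by
        apply Set.PairwiseDisjoint.countable_of_isOpen (α := U.1)
          (s := fun a => Subtype.val ⁻¹' Q a)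
        · intro a _ b _ hab
          exact (hd hab).preimage _
        · intro a _
          exact (hQ a).preimage continuous_subtype_val
        · rintro a ⟨m, hm, hm'⟩
          exact ⟨⟨m, hm'⟩, hm⟩
      exact hc.le_aleph0
    rw [h1, mk_univ, mk_real] at h2
    have h3 : #𝒰 * ℵ₀ < 𝔠 := mul_lt_of_lt aleph0_le_continuum hlt aleph0_lt_continuum
    exact absurd h2 (not_le.mpr h3)

/-- a Pruefer surface: a connected Hausdorff surface with continuum many disjoint open sets -/
def N0 : Empty → Set ℝ := fun _ => ∅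

abbrev Prufer : Type := Construct.M N0

lemma hN0 : ∀ i, IsNowhereDense (N0 i) := fun i => i.elim

lemma t2_prufer : T2Space Prufer := by
  have h1 : T2Space (Construct.layer N0 none) := Construct.t2_layer N0 none
  have h2 : Construct.layer N0 none = Set.univ := by
    rw [← Construct.sUnion_layer N0]
    ext m
    constructor
    · intro hm
      exact ⟨_, ⟨none, rfl⟩, hm⟩
    · rintro ⟨_, ⟨i, rfl⟩, hm⟩
      cases i with
      | none => exact hm
      | some i => exact i.elim
  rw [h2] at h1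
  exact (Homeomorph.Set.univ Prufer).t2Space

/-- for homogeneous non-Hausdorff manifolds strict inequality can occur iff the open Hausdorff
number can be smaller than the continuum -/
theorem main :
    (∃ (n : ℕ) (M : Type) (_ : TopologicalSpace M), TopManifold n M ∧ ¬ T2Space M ∧
      (∀ x y : M, ∃ h : M ≃ₜ M, h x = y) ∧ openHausNumber M < euclNumber n M) ↔
    (∃ (n : ℕ) (M : Type) (_ : TopologicalSpace M), TopManifold n M ∧ ¬ T2Space M ∧
      (∀ x y : M, ∃ h : M ≃ₜ M, h x = y) ∧ openHausNumber M < 𝔠) := by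
  constructor
  · rintro ⟨n, M, _, hm, hNH, hhom, hlt⟩
    refine ⟨n, M, inferInstance, hm, hNH, hhom, ?_⟩
    by_contra hcon
    push Not at hcon
    obtain ⟨𝒰, hcard, h𝒰, hcov⟩ := Size.exists_haus_cover hm
    rw [← hcard] at hcon hlt
    have h3 : #M ≤ max ℵ₀ (#𝒰 * 𝔠) := Size.mk_le hm 𝒰 h𝒰 hcov
    have h4 : #𝒰 * 𝔠 ≤ #𝒰 :=
      (mul_le_mul' le_rfl hcon).trans (mul_eq_self (aleph0_le_continuum.trans hcon)).le
    have h5 : #M ≤ #𝒰 := h3.trans (max_le (aleph0_le_continuum.trans hcon) h4)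
    exact absurd hlt (not_lt.2 ((Size.euclNumber_le hm).trans h5))
  · rintro ⟨n, M, _, hm, hNH, hhom, hlt⟩
    have hT2 : T2Space Prufer := t2_prufer
    have hP : TopManifold 2 Prufer := Construct.topManifold N0 hN0
    have hmP := topManifold_prod hm hP
    have := hm.connected
    have := hP.connected
    obtain ⟨m0⟩ : Nonempty M := inferInstance
    obtain ⟨p0⟩ : Nonempty Prufer := inferInstance
    refine ⟨n + 2, M × Prufer, inferInstance, hmP, ?_, ?_, ?_⟩
    · intro hT
      apply hNH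
      exact (T2Space.of_injective_continuous (f := fun m : M => (m, p0))
        (fun a b h => congrArg Prod.fst h) (by fun_prop))
    · rintro ⟨x, a⟩ ⟨y, b⟩
      obtain ⟨h, hh⟩ := hhom x y
      obtain ⟨k, hk⟩ := homogeneous hP a b
      exact ⟨h.prodCongr k, by simp [hh, hk]⟩
    · refine ((openHausNumber_prod_le hm).trans_lt hlt).trans_le ?_
      refine continuum_le_euclNumber hmP (fun a => Set.univ ×ˢ Construct.P N0 a)
        (fun a => isOpen_univ.prod (Construct.isOpen_P N0 a)) (fun a => ?_) ?_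
      · refine ⟨(m0, Construct.chart N0 (none, a) (0, -1)), trivial, (0, -1), ?_, rfl⟩
        show (-1 : ℝ) < 0
        norm_num
      · intro a b hab
        rw [Function.onFun, Set.disjoint_left]
        rintro ⟨m, p⟩ ⟨-, h1⟩ ⟨-, h2⟩
        exact Set.disjoint_left.mp (Construct.P_disjoint N0 hab) h1 h2

end Pool.Agent.Lib.MP_434b1a_gt.Homog
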